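import Pool.Graph.R_pool_sql_team_seeded_3997aac3.Q151.ESB.Mn
import Pool.Graph.R_pool_sql_team_seeded_3997aac3.Q285.ESB.Cnf
import Pool.Graph.R_pool_sql_team_seeded_3997aac3.Q285.ESB.Smm
import Pool.Graph.R_pool_sql_team_seeded_3997aac3.Q299.ESB.Lctb
import Pool.Graph.R_pool_sql_team_seeded_3997aac3.Q299.ESB.SysB
import Pool.Graph.R_pool_sql_team_seeded_3997aac3.Q68.ESB.An
import Pool.Graph.R_pool_sql_team_seeded_3997aac3.Q68.ESB.St
import Pool.Graph.R_pool_sql_team_seeded_3997aac3.Q68.ESB.Bx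
import Pool.Graph.R_pool_sql_team_seeded_3997aac3.Q68.ESB.Ch
import Pool.Graph.R_pool_sql_team_seeded_3997aac3.Q79.ESB.RB
import Pool.Graph.R_pool_sql_team_seeded_3997aac3.Q79.ESB.RBX
import Pool.Graph.R_pool_sql_team_seeded_3997aac3.Q164.ESB.LCUB
import Pool.Agent.H575.ES.AllN

/-!
# All parts of the sieve of project ESB (helper161) together (helper575)
-/

set_option autoImplicit false

namespace Pool.Agent.H575.ESB

open Pool.Agent.Q161.ESB

theorem t_an : S_AN := by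
  have rb := Pool.Agent.Q79.ESB.rb
  have rbx := Pool.Agent.Q79.ESB.rbx rb
  have gs := Pool.Agent.Q285.ESM.gs
  have fr := Pool.Agent.Q195.ESM.FR.fr gs
  have st := Pool.Agent.Q68.ESB.ST.st fr rb rbx
  have ch := Pool.Agent.Q68.ESB.CH.ch st rb
  have bx := Pool.Agent.Q68.ESB.BX.bx ch gs
  exact Pool.Agent.Q68.ESB.AN.an bx (Pool.Agent.Q285.ESB.smm Pool.Agent.Q24.ESM.SM.sm)

theorem t_sys : S_SYS := by
  have evx := Pool.Agent.Q190.ESN.evx
  have frx := Pool.Agent.Q153.ESN.frx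
  have res := Pool.Agent.Q79.ESN.res evx
  have n1f := Pool.Agent.Q68.ESN.n1f evx res
  have mom2 := Pool.Agent.Q123.ESN.mom2 Pool.Agent.Q184.ESM.lsf2
  have exc2 := Pool.Agent.Q190.ESN.exc2 mom2
  have cnf := Pool.Agent.Q285.ESB.cnf Pool.Agent.Q237.ESM.key (Pool.Agent.Q164.ESB.lcub Pool.Agent.Q129.ESM.lcu)
    (Pool.Agent.Q299.ESB.lctb Pool.Agent.Q299.ESM.lct)
  exact Pool.Agent.Q299.ESB.sys cnf evx frx res n1f exc2

theorem t_mn : S_MN := Pool.Agent.Q151.ESB.mn t_sys t_an Pool.Agent.Q190.ESN.evx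

end Pool.Agent.H575.ESB
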