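import Pool.Agent.H575.ESB.RelB
import Pool.Agent.H575.ESB.AllB

/-!
# Project ESB (helper161), the descent with `M` blocks, part 2: the count (helper575)
-/

set_option autoImplicit false
set_option linter.all false

namespace Pool.Agent.H575.ESB

open Polynomial NumberField IsDedekindDomain Finset Pool.Agent.Q161.ESN
open Pool.Agent.Q51.EL (Abv Par)
open Pool.Agent.Q124.ESN (gd1_mono sqF_mono val_of_par0 val_of_par1 zmod2_cases val_mv mv_iO not_mem_of_abv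
  exists_prime_below tpg_unique tpg_mv tpg_ex prod_norm_le sq_of cne isSquare_of_qd)

open Classical in
/-- the primes `v` of `F` with `D ∈ v`, not containing `B` -/
noncomputable def RD {F : Type} [Field F] [NumberField F] (B : ℕ) (D : 𝓞 F) : Finset (HeightOneSpectrum (𝓞 F)) :=
  if h : {v : HeightOneSpectrum (𝓞 F) | D ∈ v.asIdeal ∧ (B : 𝓞 F) ∉ v.asIdeal}.Finite then h.toFinset else ∅

theorem mem_RD {F : Type} [Field F] [NumberField F] {B : ℕ} {D : 𝓞 F} (hD : D ≠ 0) (v : HeightOneSpectrum (𝓞 F)) :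
    v ∈ RD B D ↔ D ∈ v.asIdeal ∧ (B : 𝓞 F) ∉ v.asIdeal := by
  classical
  have hfin : {v : HeightOneSpectrum (𝓞 F) | D ∈ v.asIdeal ∧ (B : 𝓞 F) ∉ v.asIdeal}.Finite := by
    have h0 : {v : HeightOneSpectrum (𝓞 F) | v.asIdeal ∣ Ideal.span {D}}.Finite :=
      Ideal.finite_factors (by rw [Ne, Ideal.zero_eq_bot, Ideal.span_singleton_eq_bot]; exact hD)
    refine h0.subset fun v hv => ?_
    show v.asIdeal ∣ Ideal.span {D}
    rw [Ideal.dvd_iff_le, Ideal.span_singleton_le_iff_mem]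
    exact hv.1
  unfold RD
  rw [dif_pos hfin, Set.Finite.mem_toFinset]
  rfl

theorem mem_of_val {K : Type} [Field K] [NumberField K] {w : HeightOneSpectrum (𝓞 K)} {x : 𝓞 K}
    (h : w.valuation K (x : K) = WithZero.exp (-1 : ℤ)) : x ∈ w.asIdeal := by
  have h1 : w.valuation K (algebraMap (𝓞 K) K x) < 1 := by
    have e : (algebraMap (𝓞 K) K x) = (x : K) := rfl
    rw [e, h, ← WithZero.exp_zero, WithZero.exp_lt_exp]
    norm_num
  exact (HeightOneSpectrum.valuation_lt_one_iff_mem w x).1 h1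

theorem not_mem_of_val {K : Type} [Field K] [NumberField K] {w : HeightOneSpectrum (𝓞 K)} {x : 𝓞 K}
    (h : w.valuation K (x : K) = 1) : x ∉ w.asIdeal := by
  intro hx
  have h1 := (HeightOneSpectrum.valuation_lt_one_iff_mem (K := K) w x).2 hx
  rw [h] at h1
  exact lt_irrefl _ h1

open Classical in
/-- **the count with `M` blocks** -/
def S_CNTB : Prop := ∀ (M : ℕ) (C F K : Type) [Fintype C] [Field F] [NumberField F] [Field K] [NumberField K]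
  [Algebra F K] [IsGalois ℚ K] (L : C → Type) [∀ c, Field (L c)] [∀ c, NumberField (L c)]
  [∀ c, Algebra F (L c)] (th : (c : C) → 𝓞 (L c)), 1 ≤ M → (∀ c, Dat F K (th c)) →
  ∀ (V : Type) [AddCommGroup V] [Fintype V] [DistribMulAction (K ≃ₐ[F] K) V]
  (cd : V →+ ((c : C) → (L c →ₐ[F] K) → ZMod 2)), VB cd → Semi (K ≃ₐ[F] K) V →
  ∀ B : ℕ, B ≠ 0 → ∃ (B' : ℕ) (C0 : ℝ), B' ≠ 0 ∧ 0 < C0 ∧ ∀ Fs : (c : C) → 𝓞 F → Finset (L c),
    (∀ (c : C) (D : 𝓞 F), ∀ δ ∈ Fs c D, δ ≠ 0 ∧ Gd1 F K (th c) B D δ) →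
    (∀ (c : C) (D : 𝓞 F), ∀ δ ∈ Fs c D, ∀ δ' ∈ Fs c D, δ ≠ δ' → ¬ IsSquare (δ * δ')) →
    ∀ (X : ℝ) (𝒟 : Finset (𝓞 F)), 1 ≤ X →
      (∀ D ∈ 𝒟, SqF B D ∧ ((Ideal.absNorm (Ideal.span {D}) : ℕ) : ℝ) ≤ X) →
      (∀ D ∈ 𝒟, ∀ D' ∈ 𝒟, D ≠ D' → ¬ IsSquare ((D : F) * (D' : F))) →
      ((∑ D ∈ 𝒟, (∏ c, (Fs c D).card) * M ^ (RD B' D).card : ℕ) : ℝ) ≤ C0 * X * (1 + Real.log X) ^ (M - 1)

theorem cntb : S_NIG → S_RPX → S_RELB → S_LOCG → S_FRX → Pool.Agent.Q161.ESB.S_MN → S_CNTB := by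
  classical
  intro hNIG hRPX hREL hLOC hFRX hMN M C F K _ _ _ _ _ _ _ L _ _ _ th hM1 hDat V _ _ _ cd hV hsemi Bg hBg
  obtain ⟨hv2, hinv⟩ := hNIG C F K L th hDat V cd hV
  obtain ⟨ι, _, _, Lf, _, _, em, rp, hRp⟩ := hRPX F K V
  obtain ⟨Bl, hBl, hLOC⟩ := hLOC C F K L th hDat V cd hV
  obtain ⟨Bt, hBt, hFR⟩ := hFRX F K
  obtain ⟨B, C1, K0, Qm, Qa, hBB, hB0, hC, hrel⟩ :=
    hREL M C F K L th hDat V cd hV ι Lf em rp hRp (Bg * Bl * Bt) (mul_ne_zero (mul_ne_zero hBg hBl) hBt)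
  have dg : Bg ∣ Bg * Bl * Bt := (Dvd.intro _ rfl).trans (Dvd.intro _ rfl)
  have dl : Bl ∣ B := ((Dvd.intro_left _ rfl).trans (Dvd.intro _ rfl)).trans hBB
  have dt : Bt ∣ B := (Dvd.intro_left _ rfl).trans hBB
  obtain ⟨T, hT⟩ : ∃ T : F → ((c : C) → L c) → Set (Fin M → V → 𝓞 K),
      T = fun μ a => {z | (∃ (D : 𝓞 F) (α : (c : C) → 𝓞 (L c)), RG th cd B μ a D α (fun t => ∏ m, z m t)) ∧
        (∀ m, Eqv F (z m)) ∧ (∀ l : ℕ, l.Prime → ¬ l ∣ B → ∀ w : HeightOneSpectrum (𝓞 K), Abv w l →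
          ∀ m m' t, z m t ∈ w.asIdeal → z m' t ∈ w.asIdeal → m = m') ∧
        ∀ m i, ∃ β : 𝓞 (Lf i), em i (β : Lf i) = (z m (rp i) : K) ∧ Nice K0 β} := ⟨_, rfl⟩
  have hcb : ∀ (μ : F) (a : (c : C) → L c), ∃ C : ℝ, 0 < C ∧ ∀ X : ℝ, 1 ≤ X →
      {z ∈ T μ a | ∃ N : 𝓞 F, ∏ m, ∏ t, z m t = iO F K N ∧
        ((Ideal.absNorm (Ideal.span {N}) : ℕ) : ℝ) ≤ X}.Finite ∧
      (({z ∈ T μ a | ∃ N : 𝓞 F, ∏ m, ∏ t, z m t = iO F K N ∧
        ((Ideal.absNorm (Ideal.span {N}) : ℕ) : ℝ) ≤ X}.ncard : ℕ) : ℝ) ≤ C * X * (1 + Real.log X) ^ (M - 1) := by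
    intro μ a
    refine hMN M F K V hM1 hv2 hsemi hinv ι Lf em rp hRp B K0 (T μ a) hB0 ?_ ?_
    · intro z hz m
      rw [hT] at hz
      obtain ⟨-, hz1, -, hz2⟩ := hz
      exact ⟨hz1 m, hz2 m⟩
    · intro l hl hlB w φ hw hFb
      have h1 := hLOC B dl hB0 μ a l hl hlB w φ hw hFb
      have h2 : ∀ z ∈ T μ a, (fun t => ∏ m, z m t) ∈ {z : V → 𝓞 K | ∃ (D : 𝓞 F) (α : (c : C) → 𝓞 (L c)),
          RG th cd B μ a D α z} := by
        intro z hz
        rw [hT] at hz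
        exact hz.1
      have h3 : ∀ (z : Fin M → V → 𝓞 K) (m : Fin M) (t : V), z m t ∈ w.asIdeal →
          (∏ m, z m t) ∈ w.asIdeal := by
        intro z m t h
        rw [← Finset.mul_prod_erase univ (fun m => z m t) (mem_univ m)]
        exact Ideal.mul_mem_right _ _ h
      refine ⟨fun z hz m t hmt => ?_, fun z hz z' hz' t m m' hmt hmt' χ hχ => ?_⟩
      · obtain ⟨k1, k2⟩ := h1.one _ (h2 z hz) t (h3 z m t hmt)
        refine ⟨k1, fun m' s hne hms => ?_⟩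
        by_cases hs : s = t
        · subst hs
          rw [hT] at hz
          have := hz.2.2.1 l hl hlB w hw m m' s hmt hms
          exact hne (by rw [this])
        · exact k2 s hs (h3 z m' s hms)
      · have k := h1.two _ (h2 z hz) _ (h2 z' hz') t (h3 z m t hmt) (h3 z' m' t hmt') χ hχ
        have e : (∏ s ∈ univ.filter (fun s => χ (s - t) ≠ 0), ∏ j, z j s * z' j s) =
            ∏ s ∈ univ.filter (fun s => χ (s - t) ≠ 0), ((∏ m, z m s) * (∏ m, z' m s)) :=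
          Finset.prod_congr rfl fun s _ => Finset.prod_mul_distrib
        rw [e]
        exact k
  choose Cb hCb0 hCb using hcb
  obtain ⟨Q, hQ⟩ : ∃ Q : Finset (F × ((c : C) → L c)), Q = Qm ×ˢ Qa := ⟨_, rfl⟩
  -- the constants
  set C2 : ℝ := C1 + 1 with hC2
  have hC21 : 1 ≤ C2 := by linarith
  have hlog : ∀ X : ℝ, 1 ≤ X → 1 + Real.log (C2 * X) ≤ (1 + Real.log C2) * (1 + Real.log X) := by
    intro X hX
    rw [Real.log_mul (by positivity) (by positivity)]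
    have h1 := Real.log_nonneg hC21
    have h2 := Real.log_nonneg hX
    nlinarith
  refine ⟨B, (∑ p ∈ Q, Cb p.1 p.2) * C2 * (1 + Real.log C2) ^ (M - 1) + 1, hB0, ?_, ?_⟩
  · have : 0 ≤ ∑ p ∈ Q, Cb p.1 p.2 := Finset.sum_nonneg fun p _ => (hCb0 _ _).le
    have h1 := Real.log_nonneg hC21
    positivity
  intro Fs hF1 hF2 X 𝒟 hX hD1 hD2
  have hCX : 1 ≤ C2 * X := by nlinarith
  obtain ⟨U, hU⟩ : ∃ U : Finset (Σ D : 𝓞 F, ((c : C) → L c) × ((v : HeightOneSpectrum (𝓞 F)) → v ∈ RD B D → Fin M)),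
      U = 𝒟.sigma (fun D => (Fintype.piFinset fun c => Fs c D) ×ˢ ((RD B D).pi fun _ => (univ : Finset (Fin M)))) :=
    ⟨_, rfl⟩
  have hUc : (∑ D ∈ 𝒟, (∏ c, (Fs c D).card) * M ^ (RD B D).card) = U.card := by
    rw [hU, card_sigma]
    refine sum_congr rfl fun D _ => ?_
    rw [card_product, Fintype.card_piFinset, card_pi, prod_const, card_univ, Fintype.card_fin]
  have hUmem : ∀ x ∈ U, x.1 ∈ 𝒟 ∧ (∀ c, x.2.1 c ∈ Fs c x.1) := by
    intro x hx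
    rw [hU, mem_sigma, mem_product] at hx
    exact ⟨hx.1, fun c => Fintype.mem_piFinset.1 hx.2.1 c⟩
  -- the blocks
  let jj : (x : Σ D : 𝓞 F, ((c : C) → L c) × ((v : HeightOneSpectrum (𝓞 F)) → v ∈ RD B D → Fin M)) →
      HeightOneSpectrum (𝓞 F) → Fin M := fun x v => if h : v ∈ RD B x.1 then x.2.2 v h else ⟨0, hM1⟩
  have hex : ∀ x ∈ U, ∃ y : (F × ((c : C) → L c)) × (Fin M → V → 𝓞 K),
      y.1 ∈ Q ∧ (∃ α : (c : C) → 𝓞 (L c), RG th cd B y.1.1 y.1.2 x.1 α (fun t => ∏ m, y.2 m t) ∧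
        Blk cd B x.1 α (jj x) y.2 ∧
        ∀ c, ∃ η : L c, η ≠ 0 ∧ (α c : L c) = x.2.1 c * η ^ 2) ∧
      (∀ m i, ∃ β : 𝓞 (Lf i), em i (β : Lf i) = (y.2 m (rp i) : K) ∧ Nice K0 β) ∧
      ∃ N : 𝓞 F, ∏ m, ∏ t, y.2 m t = iO F K N ∧ ((Ideal.absNorm (Ideal.span {N}) : ℕ) : ℝ) ≤
        C1 * ((Ideal.absNorm (Ideal.span {x.1}) : ℕ) : ℝ) := by
    intro x hx
    obtain ⟨h1, h2⟩ := hUmem x hx
    obtain ⟨μ, hμ, a, ha, α, z, k1, kb, k2, k3, k4⟩ :=
      hrel x.1 x.2.1 (jj x) (sqF_mono (hD1 _ h1).1 dg) (fun c => (hF1 c x.1 (x.2.1 c) (h2 c)).1)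
        (fun c => gd1_mono (hF1 c x.1 (x.2.1 c) (h2 c)).2 dg)
    refine ⟨((μ, a), z), ?_, ⟨α, k1, kb, k4⟩, k2, k3⟩
    rw [hQ, mem_product]
    exact ⟨hμ, ha⟩
  choose! Ψ hΨ using hex
  obtain ⟨bx, hbx⟩ : ∃ bx : (F × ((c : C) → L c)) → Finset (Fin M → V → 𝓞 K),
      ∀ p, (∀ z, z ∈ bx p ↔ z ∈ {z ∈ T p.1 p.2 | ∃ N : 𝓞 F, ∏ m, ∏ t, z m t = iO F K N ∧
        ((Ideal.absNorm (Ideal.span {N}) : ℕ) : ℝ) ≤ C2 * X}) ∧
        ((bx p).card : ℝ) ≤ Cb p.1 p.2 * (C2 * X) * (1 + Real.log (C2 * X)) ^ (M - 1) := by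
    refine ⟨fun p => (hCb p.1 p.2 (C2 * X) hCX).1.toFinset, ?_⟩
    intro p
    refine ⟨fun z => Set.Finite.mem_toFinset _, ?_⟩
    rw [← Set.ncard_eq_toFinset_card _ (hCb p.1 p.2 (C2 * X) hCX).1]
    exact (hCb p.1 p.2 (C2 * X) hCX).2
  obtain ⟨W, hW⟩ : ∃ W : Finset (Σ _ : (F × ((c : C) → L c)), (Fin M → V → 𝓞 K)),
      W = Q.sigma (fun p => bx p) := ⟨_, rfl⟩
  have hWc : (W.card : ℝ) ≤ (∑ p ∈ Q, Cb p.1 p.2) * ((C2 * X) * (1 + Real.log (C2 * X)) ^ (M - 1)) := by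
    rw [hW, card_sigma]
    push_cast
    rw [Finset.sum_mul]
    refine Finset.sum_le_sum fun p _ => (hbx p).2.trans (le_of_eq ?_)
    ring
  have hle : U.card ≤ W.card := by
    apply Finset.card_le_card_of_injOn
      (fun x => (⟨(Ψ x).1, (Ψ x).2⟩ : Σ _ : (F × ((c : C) → L c)), (Fin M → V → 𝓞 K)))
    · intro x hx
      have hx' : x ∈ U := hx
      obtain ⟨h1, h2⟩ := hUmem x hx'
      obtain ⟨k1, ⟨α, k2, kb, -⟩, k3, N, k4, k5⟩ := hΨ x hx'
      rw [mem_coe, hW, mem_sigma]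
      refine ⟨k1, ?_⟩
      rw [(hbx _).1]
      refine ⟨?_, N, k4, k5.trans ?_⟩
      · rw [hT]
        refine ⟨⟨x.1, α, k2⟩, kb.eqv, ?_, k3⟩
        intro l hl hlB w hw m m' t hm hm'
        have e1 : ∀ m, (Ψ x).2 m t ∈ w.asIdeal → ∃ v, Ov w v ∧ jj x v = m := by
          intro m hm
          by_contra hno
          exact not_mem_of_val ((kb.blk l hl hlB w hw m t).2 (fun h => hno h.2.2)) hm
        obtain ⟨v, hv, rfl⟩ := e1 m hm
        obtain ⟨v', hv', rfl⟩ := e1 m' hm'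
        rw [ov_unique hv hv']
      · have h3 := (hD1 _ h1).2
        nlinarith [Nat.cast_nonneg (α := ℝ) (Ideal.absNorm (Ideal.span {x.1}))]
    · intro x hx x' hx' hΨΨ
      have hxU : x ∈ U := hx
      have hxU' : x' ∈ U := hx'
      have hΨeq : Ψ x = Ψ x' := by
        have h1 := congrArg Sigma.fst hΨΨ
        have h2 := congrArg (fun z : (Σ _ : (F × ((c : C) → L c)), (Fin M → V → 𝓞 K)) => z.2) hΨΨ
        exact Prod.ext h1 h2
      obtain ⟨h1, h2⟩ := hUmem x hxU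
      obtain ⟨h1', h2'⟩ := hUmem x' hxU'
      obtain ⟨-, ⟨α, hR, hblk, hα⟩, -, -⟩ := hΨ x hxU
      obtain ⟨-, ⟨α', hR', hblk', hα'⟩, -, -⟩ := hΨ x' hxU'
      rw [← hΨeq] at hR' hblk'
      have hP0 : (∏ t, ((∏ m, (Ψ x).2 m t : 𝓞 K) : K)) ≠ 0 := by
        rw [prod_ne_zero_iff]
        intro t _
        exact cne (hR.rel.ne t)
      have hD : x.1 = x'.1 := by
        by_contra hne
        obtain ⟨s, hs, e⟩ := hR.qd
        obtain ⟨s', -, e'⟩ := hR'.qd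
        exact hD2 x.1 h1 x'.1 h1' hne (isSquare_of_qd (cne hR.rel.sq.1) hs hP0 e e')
      have hδ : x.2.1 = x'.2.1 := by
        funext c
        by_contra hne
        have h3' : x'.2.1 c ∈ Fs c x.1 := by
          have e : Fs c x.1 = Fs c x'.1 := by rw [hD]
          rw [e]
          exact h2' c
        obtain ⟨η, hη, he⟩ := hα c
        obtain ⟨η', hη', he'⟩ := hα' c
        obtain ⟨q, hq, hqa⟩ := hR.qa c
        obtain ⟨q', hq', hqa'⟩ := hR'.qa c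
        have hα0 : ((α c : 𝓞 (L c)) : L c) ≠ 0 := cne (hR.rel.a0 c)
        obtain ⟨ι0⟩ : Nonempty (L c →ₐ[F] K) := by
          rw [← Fintype.card_pos_iff]
          exact (hDat c).odd.pos
        have e1 := hqa ι0
        have e2 := hqa' ι0
        have hP : (∏ t ∈ univ.filter (fun t => cd t c ι0 = 1), ((∏ m, (Ψ x).2 m t : 𝓞 K) : K)) ≠ 0 := by
          rw [prod_ne_zero_iff]
          intro t _
          exact cne (hR.rel.ne t)
        have ha0 : (Ψ x).1.2 c ≠ 0 := by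
          intro h
          rw [h, map_zero, zero_mul] at e1
          exact mul_ne_zero ((_root_.map_ne_zero ι0).2 hα0) hP e1
        refine hF2 c x.1 (x.2.1 c) (h2 c) (x'.2.1 c) h3' hne
          (sq_of (q' := q') hα0 hq hη hη' he he' ha0 ?_)
        have hinj : Function.Injective ι0 := ι0.toRingHom.injective
        apply hinj
        apply mul_left_cancel₀ hP
        rw [map_mul, map_mul, map_mul, map_mul, map_pow, map_pow, ← e1, ← e2]
        ring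
      have hj : ∀ v ∈ RD B x.1, jj x v = jj x' v := by
        intro v hv
        have hv1 := (mem_RD hR.rel.sq.1 v).1 hv
        obtain ⟨l, hl, hlB, hvl⟩ := exists_prime_below v hB0 hv1.2
        obtain ⟨-, -, ⟨P, _, vv, ww, qq, φφ, hfrm⟩, -⟩ := hFR l hl fun h' => hlB (h'.trans dt)
        obtain ⟨p, rfl⟩ := (hfrm.abv v).1 hvl
        have hov := hfrm.ov p
        have hw : Abv (ww p) l := by
          have := (hov (l : 𝓞 F)).1 hvl
          rwa [map_natCast] at this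
        have hDw : iO F K x.1 ∈ (ww p).asIdeal := (hov _).1 hv1.1
        obtain ⟨t, ht⟩ := tpg_ex hV hR.rel.gd hR.rel.nrm hl hlB hw hDw
        have k1 := (hblk.blk l hl hlB (ww p) hw (jj x (vv p)) t).1 ⟨hDw, ht, vv p, hov, rfl⟩
        by_contra hne
        have k2 := (hblk'.blk l hl hlB (ww p) hw (jj x (vv p)) t).2 (by
          rintro ⟨-, -, v', hv', hj'⟩
          rw [ov_unique hv' hov] at hj'
          exact hne hj'.symm)
        exact not_mem_of_val k2 (mem_of_val k1)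
      obtain ⟨D, δ, j⟩ := x
      obtain ⟨D', δ', j'⟩ := x'
      simp only at hD hδ hj
      subst hD
      subst hδ
      have : j = j' := by
        funext v hv
        have h5 := hj v hv
        simp only [jj] at h5
        rw [dif_pos hv, dif_pos hv] at h5
        exact h5
      rw [this]
  rw [hUc]
  have h1 : (U.card : ℝ) ≤ W.card := by exact_mod_cast hle
  have h2 := h1.trans hWc
  refine h2.trans ?_
  have hS : 0 ≤ ∑ p ∈ Q, Cb p.1 p.2 := Finset.sum_nonneg fun p _ => (hCb0 _ _).le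
  have hL0 : 0 ≤ Real.log C2 := Real.log_nonneg hC21
  have hLX : 0 ≤ Real.log X := Real.log_nonneg hX
  have hLCX : 0 ≤ Real.log (C2 * X) := Real.log_nonneg hCX
  have hp : (1 + Real.log (C2 * X)) ^ (M - 1) ≤ (1 + Real.log C2) ^ (M - 1) * (1 + Real.log X) ^ (M - 1) := by
    rw [← mul_pow]
    exact pow_le_pow_left₀ (by linarith) (hlog X hX) _
  have hX0 : 0 ≤ X := by linarith
  calc (∑ p ∈ Q, Cb p.1 p.2) * ((C2 * X) * (1 + Real.log (C2 * X)) ^ (M - 1))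
      ≤ (∑ p ∈ Q, Cb p.1 p.2) * ((C2 * X) * ((1 + Real.log C2) ^ (M - 1) * (1 + Real.log X) ^ (M - 1))) := by
        gcongr
    _ = ((∑ p ∈ Q, Cb p.1 p.2) * C2 * (1 + Real.log C2) ^ (M - 1)) * X * (1 + Real.log X) ^ (M - 1) := by ring
    _ ≤ _ := by
        gcongr
        linarith

end Pool.Agent.H575.ESB
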