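import Pool.Agent.H575.ES.Stm

/-!
# Project ESB (helper161, helper575): ranks over ALL extensions with group `(ℤ/2)^m` of a number field

GOAL.  `F` ANY number field, `E_i : y² = x³ + a_i x + b_i` (finitely many) elliptic curves over `F` without `F`-rational points of
order two, `m ≥ 1`.  Order the Galois extensions `K` of `F` with group `(ℤ/2)^m` by the norm `condK K` of the product of
the (tamely) ramified primes.  For every `k` the average of `2^(k * ∑ rank E_i(K))` over all `K` with `condK K ≤ X` is bounded.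
PROVED already (helper575, `Pool/Agent/H575/ESB/CntB.lean` ..): `∑_{D, cond D ≤ X} M^ω(D) ∏_i #Sel_2(E_{i,D})^k ≤
C X (1 + log X)^(M - 1)`, the sum over `D ∈ F^*/F^*²`.  This file: the passage to the extensions `K`.
-/

set_option autoImplicit false

namespace Pool.Agent.H575.ESB

open NumberField IsDedekindDomain Finset
open Pool.Agent.Q51.EL (Par)
open Pool.Agent.H575.ES (tw cond)

/-- the Galois extensions of `F` with group `(ℤ/2)^m` -/
structure MQ {F : Type} [Field F] (m : ℕ) (K : IntermediateField F (AlgebraicClosure F)) : Prop where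
  gal : IsGalois F K
  sq : ∀ σ : K ≃ₐ[F] K, σ * σ = 1
  deg : Module.finrank F K = 2 ^ m

/-- some `D ∈ F` which is a square in `K` has odd valuation at `v` (for `v` not above two: `v` is ramified in `K`) -/
def RamK {F : Type} [Field F] [NumberField F] (K : IntermediateField F (AlgebraicClosure F))
    (v : HeightOneSpectrum (𝓞 F)) : Prop :=
  ∃ D : F, D ≠ 0 ∧ (∃ s ∈ K, s ^ 2 = algebraMap F (AlgebraicClosure F) D) ∧ Par v D 1

/-- the norm of the product of the primes with `RamK` -/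
noncomputable def condK {F : Type} [Field F] [NumberField F] (K : IntermediateField F (AlgebraicClosure F)) : ℕ :=
  ∏ᶠ (v : HeightOneSpectrum (𝓞 F)) (_ : RamK K v), Ideal.absNorm v.asIdeal

/-- the `b j` are a basis of the subgroup of `F^*/F^*²` that belongs to `K` -/
structure Gen {F : Type} [Field F] {m : ℕ} (K : IntermediateField F (AlgebraicClosure F)) (b : Fin m → F) : Prop where
  ne : ∀ j, b j ≠ 0
  ind : ∀ S : Finset (Fin m), S.Nonempty → ¬ IsSquare (∏ j ∈ S, b j)
  sqr : ∀ j, ∃ s ∈ K, s ^ 2 = algebraMap F (AlgebraicClosure F) (b j)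
  all : ∀ s ∈ K, ∀ c : F, s ^ 2 = algebraMap F (AlgebraicClosure F) c →
    ∃ (S : Finset (Fin m)) (t : F), c = (∏ j ∈ S, b j) * t ^ 2
  adj : K = IntermediateField.adjoin F {s | ∃ j, s ^ 2 = algebraMap F (AlgebraicClosure F) (b j)}

/-- JOB GEN (two statements). Kummer theory.
Proof.  (1) `Pool.Agent.Q150.ESB.dual_basis` for `G = (K ≃ₐ[F] K)` gives `e j`, `χ j`.  For every character `χ : G → ZMod 2`
there is an `s ∈ K`, `s ≠ 0`, `σ s = (-1)^χ(σ) s` (for some `x ∈ K` the sum `∑_σ (-1)^χ(σ) σ x ≠ 0`: linear independence of the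
`σ`, `linearIndependent_monoidHom` / Dedekind, or the library proof in `Pool/Agent/Q5/BR/Rank.lean`); `s² = b_χ ∈ F`.  `b j` for
`χ j`; products of the `s j` over `S` have the character `∑_{j ∈ S} χ j`, not trivial (evaluate at `e j`), so
`∏_S b j` is not a square in `F`.  `s² = c`: the character of `s` is `∑_{j ∈ S} χ j` (`dual_basis`), `s/∏_S s j ∈ F`.
`adj`: the field generated by the `s j` has only the trivial automorphism fixing it.
(2) `Pool/Graph/R_pool_sql_team_seeded_3997aac3/Q121/ESB/EXT0.lean` (`main`, `normal`, `two`) for square roots `r j` of the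
`b j` in the algebraic closure; `K = KU r`. -/
def S_GEN1 : Prop := ∀ (F : Type) [Field F] [NumberField F] (m : ℕ) (K : IntermediateField F (AlgebraicClosure F)),
  MQ m K → ∃ b : Fin m → F, Gen K b

def S_GEN2 : Prop := ∀ (F : Type) [Field F] [NumberField F] (m : ℕ) (b : Fin m → F), (∀ j, b j ≠ 0) →
  (∀ S : Finset (Fin m), S.Nonempty → ¬ IsSquare (∏ j ∈ S, b j)) →
  ∃ K : IntermediateField F (AlgebraicClosure F), MQ m K ∧ Gen K b

open Classical in
/-- JOB MQR. The rank over an elementary abelian 2-extension `M` of `F`.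
Proof.  `G = Gal(M/F)`, abelian, `σ² = 1`; for a character `χ : G → {± 1}` there is an `s ∈ M^*` with `σ s = χ(σ) s`, `s² ∈ F`.
The map `P ↦ (∑_σ χ(σ) σ P)_χ` from `E(M)` to `∏_χ E(M)^χ`, `E(M)^χ = {P | σ P = χ(σ) P}`, has finite kernel (the
sum over `χ` of the components is `#G` times `P`: so injective after `⊗ ℚ`).  Let `i(χ)`, `s² = d_i t²` (by the hypothesis), `s' = s/t`,
`s'² = d_i`.  `E(M)^χ → E^(d_i)(F)`, `(x, y) ↦ (d_i x, d_i s' y)`: `x ∈ F`, `y/s' ∈ F`, `s' y = d_i (y/s')`; the image is a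
point of `Y² = X³ + A d_i² X + B d_i³`, and this is an injective homomorphism.  Different `χ` have different `i(χ)`
(if `i(χ) = i(χ')` then `s/s' ∈ F`).  So `rank E(M) ≤ ∑_χ rank E(M)^χ ≤ ∑_i rank E^(d_i)(F)`.
Mordell-Weil over number fields: `Pool.Agent.Q286.EQ.mordell_weil`, or `Pool/Graph/R_seed8/H64R2/DD_MWK.lean`.  Compare
`Q5/BR/Rank.lean` and `Y667/OG/Rank.lean` in the library (rank decompositions over quadratic and multiquadratic fields), and
library modules with `ofTwist`, `rank_quadratic`, `twist`. -/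
def S_MQR : Prop := ∀ (F M : Type) [Field F] [NumberField F] [Field M] [NumberField M] [Algebra F M],
  IsGalois F M → (∀ σ : M ≃ₐ[F] M, σ * σ = 1) → ∀ (n : ℕ) (d : Fin n → F), (∀ i, d i ≠ 0) →
  (∀ (s : M) (c : F), s ≠ 0 → s ^ 2 = algebraMap F M c → ∃ (i : Fin n) (t : F), c = d i * t ^ 2) →
  ∀ A B : F, 4 * A ^ 3 + 27 * B ^ 2 ≠ 0 →
    Module.finrank ℤ (⟨0, 0, 0, algebraMap F M A, algebraMap F M B⟩ : WeierstrassCurve M).toAffine.Point ≤
      ∑ i, Module.finrank ℤ (tw A B (d i)).toAffine.Point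

open Classical in
/-- JOB LOWK. The number of the extensions `K` is at least `c X (1 + log X)^(2^m - 2)`.
Proof (from `S_GEN2`).  `ι` = the nonzero elements `g` of `Fin m → ZMod 2` (`2^m - 1` elements), `V = HeightOneSpectrum (𝓞 F)`,
`ν v = N v`, `Good A`: the ideal `∏_{v ∈ A} v` is principal.  `Pool.Agent.Q68.ESB.Lw.tuples` (`Q68/ESB/LowbC.lean`), with `hL` from
`Pool.Agent.Q211.ESB.count` (`Q211/ESB/LowA.lean`: squarefree principal ideals prime to `P`), gives at least
`c X (1 + log X)^(2^m - 2)` tuples `τ` of nonempty, pairwise disjoint good sets `τ g` with `∏_g N(τ g) ≤ X`.  Let `π_g` generate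
`∏_{v ∈ τ g} v`, `b j = ∏_{g j = 1} π_g`.  For `S ≠ ∅` the product `∏_{j ∈ S} b j` has odd valuation exactly at the `v ∈ τ g`
with `∑_{j ∈ S} g j = 1`, so it is not a square; `K` from `S_GEN2`; `RamK K v` iff `v` is in some `τ g` (by `Gen.all`), so
`condK K = ∏_g N(τ g) ≤ X`.  `K` determines the `b j` modulo squares up to `(2^m)^m` possibilities (`Gen.all`), and the classes
of the `b j` determine the sets `τ g = {v | for all j: Par v (b j) 1 iff g j = 1}` (`g ≠ 0`); so at most `2^(m m)` tuples `τ` have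
the same `K`. -/
def S_LOWK : Prop := ∀ (F : Type) [Field F] [NumberField F] (m : ℕ), 1 ≤ m →
  ∃ c X0 : ℝ, 0 < c ∧ 1 ≤ X0 ∧ ∀ X : ℝ, X0 ≤ X → ∃ 𝒦 : Finset (IntermediateField F (AlgebraicClosure F)),
    (∀ K ∈ 𝒦, MQ m K ∧ (condK K : ℝ) ≤ X) ∧ c * X * (1 + Real.log X) ^ (2 ^ m - 2) ≤ (𝒦.card : ℝ)

open Classical in
/-- the number of the primes at which the valuation of `D` is odd -/
noncomputable def omg {F : Type} [Field F] [NumberField F] (D : F) : ℕ :=
  {v : HeightOneSpectrum (𝓞 F) | Par v D 1}.ncard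

open Classical in
/-- JOB FAM. From the twists to the extensions.
Proof.  `Pool.Agent.Q210.ESB.core'` (`Q210/ESB/FamA.lean`; `card_odd` there) with `V` = the primes of `F`, `N v` their norms, `I = 𝒦`,
`t K v = {j | Par v (bb K j) 1}`, `sup K` = the (finite) set of the `v` with `t K v ≠ ∅` (`RamK K v ↔ t K v ≠ ∅` by `Gen.all`, so
`∏ = condK K ≤ X`), `o T = Odd (T ∩ S).card`, `Δ = F`, `D K` = a fixed representative (for instance `Quotient.out` for the
relation `x * y` is a nonzero square, or choose) of the class of `∏_{j ∈ S} bb K j` modulo squares, `sp d = {v | Par v d 1}`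
(valuations of products: odd iff an odd number of factors is odd), `f` a class function; `K0` = a bound for the number of the
`K` with given `t`: then the `bb K j` are determined up to classes with all valuations even, and there are finitely many of
these (from `hf` with `Y = 1`? no: from `hU`, `X = 1`: at most `C0` classes with `cond = 1`), and `K` is determined by the classes of
the `bb K j` (`Gen.adj`).  `hI`: `Pool.Agent.Q151.ESB.sum_inv_le` (`Q151/ESB/IdlA.lean`) and `prod_ideal_inj`, `norm_prod_ideal`. -/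
def S_FAM : Prop := ∀ (F : Type) [Field F] [NumberField F] (m : ℕ), 1 ≤ m →
  (∃ C0 : ℝ, ∀ 𝒟 : Finset F, (∀ D ∈ 𝒟, D ≠ 0 ∧ (cond D : ℝ) ≤ 1) →
    (∀ D ∈ 𝒟, ∀ D' ∈ 𝒟, D ≠ D' → ¬ IsSquare (D * D')) → (𝒟.card : ℝ) ≤ C0) →
  ∀ f : F → ℝ, (∀ D, 0 ≤ f D) → (∀ D D' : F, D ≠ 0 → D' ≠ 0 → IsSquare (D * D') → f D = f D') →
  ∀ C1 : ℝ, 0 < C1 → (∀ (Y : ℝ) (𝒟 : Finset F), 1 ≤ Y → (∀ D ∈ 𝒟, D ≠ 0 ∧ (cond D : ℝ) ≤ Y) →
    (∀ D ∈ 𝒟, ∀ D' ∈ 𝒟, D ≠ D' → ¬ IsSquare (D * D')) →
    ∑ D ∈ 𝒟, ((2 ^ (m - 1) : ℕ) : ℝ) ^ omg D * f D ≤ C1 * Y * (1 + Real.log Y) ^ (2 ^ (m - 1) - 1)) →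
  ∃ C2 : ℝ, 0 < C2 ∧ ∀ (X : ℝ) (𝒦 : Finset (IntermediateField F (AlgebraicClosure F)))
    (bb : IntermediateField F (AlgebraicClosure F) → Fin m → F), 1 ≤ X →
    (∀ K ∈ 𝒦, Gen K (bb K) ∧ (condK K : ℝ) ≤ X) → ∀ S : Finset (Fin m), S.Nonempty →
    ∑ K ∈ 𝒦, f (∏ j ∈ S, bb K j) ≤ C2 * X * (1 + Real.log X) ^ (2 ^ m - 2)

end Pool.Agent.H575.ESB
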