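import Pool.Agent.H575.ESB.CntB
import Pool.Agent.H575.ESB.StmK
import Pool.Agent.H575.ES.Fin

/-!
# Project ESB (helper575): the weighted moments over all quadratic twists
-/

set_option autoImplicit false
set_option linter.all false

open scoped Classical

namespace Pool.Agent.H575.ESB

open Polynomial NumberField IsDedekindDomain
open Pool.Agent.Q161.ESN (Ov SqF Gd1 Dat VB)
open Pool.Agent.Q193.ESG (U1)
open Pool.Agent.Q161.ESF (selC cobT Sel2)
open Pool.Agent.Q51.EL (Abv Par)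
open Pool.Agent.H575.ES (tw cond App exists_den irr_of exists_L exists_set t_cntg)

theorem t_cntb : S_CNTB := by
  have suf := Pool.Agent.Q14.ESM.suf
  have evx := Pool.Agent.Q190.ESN.evx
  have frx := Pool.Agent.Q153.ESN.frx
  have zex := Pool.Agent.Q184.ESN.zex Pool.Agent.Q79.ESN.gen evx frx
  have rel := relb Pool.Agent.Q190.ESN.nrm zex (Pool.Agent.Q190.ESN.qag suf)
    (Pool.Agent.Q190.ESN.qdg suf) frx
  have locg := Pool.Agent.Q65.ESN.locg Pool.Agent.Q65.ESN.dualg Pool.Agent.Q24.ESM.add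
    Pool.Agent.Q238.ESN.ljg
  exact cntb Pool.Agent.Q65.ESN.nig Pool.Agent.Q190.ESN.rpx rel locg frx t_mn

/-- the primes dividing `B` -/
theorem finite_dvd {F : Type} [Field F] [NumberField F] {B : ℕ} (hB : B ≠ 0) :
    {v : HeightOneSpectrum (𝓞 F) | (B : 𝓞 F) ∈ v.asIdeal}.Finite := by
  have h0 : {v : HeightOneSpectrum (𝓞 F) | v.asIdeal ∣ Ideal.span {(B : 𝓞 F)}}.Finite :=
    Ideal.finite_factors (by
      rw [Ne, Ideal.zero_eq_bot, Ideal.span_singleton_eq_bot]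
      exact_mod_cast hB)
  refine h0.subset fun v hv => ?_
  show v.asIdeal ∣ Ideal.span {(B : 𝓞 F)}
  rw [Ideal.dvd_iff_le, Ideal.span_singleton_le_iff_mem]
  exact hv

/-- parity is not changed by squares -/
theorem par_sq {F : Type} [Field F] [NumberField F] {v : HeightOneSpectrum (𝓞 F)} {D c : F} (hc : c ≠ 0) :
    Par v (D * c ^ 2) 1 ↔ Par v D 1 := by
  obtain ⟨n, hn⟩ : ∃ n : ℤ, v.valuation F c = WithZero.exp n := by
    have h0 : v.valuation F c ≠ 0 := (Valuation.ne_zero_iff _).2 hc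
    exact ⟨_, (WithZero.exp_log h0).symm⟩
  constructor
  · rintro ⟨k, hk⟩
    refine ⟨k - n, ?_⟩
    rw [map_mul, map_pow, hn, ← WithZero.exp_nsmul] at hk
    have h1 : v.valuation F D = WithZero.exp (1 + 2 * k) * (WithZero.exp (2 • n))⁻¹ := by
      rw [← hk, mul_assoc, mul_inv_cancel₀ WithZero.exp_ne_zero, mul_one]
    rw [h1, ← WithZero.exp_neg, ← WithZero.exp_add]
    congr 1
    simp only [nsmul_eq_mul, Nat.cast_ofNat]
    ring
  · rintro ⟨k, hk⟩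
    refine ⟨k + n, ?_⟩
    rw [map_mul, map_pow, hn, hk, ← WithZero.exp_nsmul, ← WithZero.exp_add]
    congr 1
    simp only [nsmul_eq_mul, Nat.cast_ofNat]
    ring

/-- `ω(D)` up to the primes dividing `B` -/
theorem omg_le {F : Type} [Field F] [NumberField F] {B : ℕ} (hB : B ≠ 0) {D0 : 𝓞 F} (hD0 : D0 ≠ 0) {D c : F}
    (hc : c ≠ 0) (h : (D0 : F) = D * c ^ 2) :
    omg D ≤ (RD B D0).card + {v : HeightOneSpectrum (𝓞 F) | (B : 𝓞 F) ∈ v.asIdeal}.ncard := by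
  have hfin : ((RD B D0 : Set (HeightOneSpectrum (𝓞 F))) ∪
      {v : HeightOneSpectrum (𝓞 F) | (B : 𝓞 F) ∈ v.asIdeal}).Finite :=
    (Finset.finite_toSet _).union (finite_dvd hB)
  have hsub : {v : HeightOneSpectrum (𝓞 F) | Par v D 1} ⊆ (RD B D0 : Set (HeightOneSpectrum (𝓞 F))) ∪
      {v : HeightOneSpectrum (𝓞 F) | (B : 𝓞 F) ∈ v.asIdeal} := by
    intro v hv
    by_cases h1 : (B : 𝓞 F) ∈ v.asIdeal
    · exact Or.inr h1
    · left
      rw [Finset.mem_coe, mem_RD hD0]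
      refine ⟨?_, h1⟩
      have h2 : Par v (D0 : F) 1 := by
        rw [h]
        exact (par_sq hc).2 hv
      obtain ⟨k, hk⟩ := h2
      by_contra hno
      have h3 : v.valuation F (algebraMap (𝓞 F) F D0) = 1 := by
        have h4 := v.valuation_le_one (K := F) D0
        refine le_antisymm h4 (not_lt.1 fun h5 => hno ((HeightOneSpectrum.valuation_lt_one_iff_mem v D0).1 h5))
      have h4 : v.valuation F (D0 : F) = 1 := h3
      rw [hk, ← WithZero.exp_zero, WithZero.exp_inj] at h4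
      omega
  calc omg D = {v : HeightOneSpectrum (𝓞 F) | Par v D 1}.ncard := rfl
    _ ≤ _ := Set.ncard_le_ncard hsub hfin
    _ ≤ _ := Set.ncard_union_le _ _
    _ = _ := by rw [Set.ncard_coe_finset]

/-- **the weighted count** for finite sets of classes -/
theorem cntw_fin (M : ℕ) (hM : 1 ≤ M) (F ι : Type) [Field F] [NumberField F] [Fintype ι] (a b : ι → F)
    (hnr : ∀ i, ∀ x : F, x ^ 3 + a i * x + b i ≠ 0) :
    ∃ C : ℝ, 0 < C ∧ ∀ (X : ℝ) (𝒟 : Finset F), 1 ≤ X → (∀ D ∈ 𝒟, D ≠ 0 ∧ (cond D : ℝ) ≤ X) →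
    (∀ D ∈ 𝒟, ∀ D' ∈ 𝒟, D ≠ D' → ¬ IsSquare (D * D')) →
    ∀ T : (i : ι) → (D : F) → Finset (Sel2 (tw (a i) (b i) D)),
    ∑ D ∈ 𝒟, ((∏ i, (T i D).card : ℕ) : ℝ) * (M : ℝ) ^ omg D ≤ C * X * (1 + Real.log X) ^ (M - 1) := by
  obtain ⟨m, hm, hab⟩ := exists_den a b
  choose a' b' ha' hb' using hab
  have hmF : (m : F) ≠ 0 := by exact_mod_cast hm
  have hnr' : ∀ i, ∀ x : F, x ^ 3 + (a' i : F) * x + (b' i : F) ≠ 0 := by
    intro i x hx
    rw [ha', hb'] at hx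
    apply hnr i (x / (m : F) ^ 2)
    have e : (x / (m : F) ^ 2) ^ 3 + a i * (x / (m : F) ^ 2) + b i =
        (x ^ 3 + a i * (m : F) ^ 4 * x + b i * (m : F) ^ 6) / (m : F) ^ 6 := by
      field_simp
    rw [e, hx, zero_div]
  have hirr' := fun i => irr_of (hnr' i)
  have hirr := fun i => irr_of (hnr i)
  choose L i1 i2 i3 th hth using fun i => exists_L F (a' i) (b' i) (hirr' i)
  letI := i1
  letI := i2
  letI := i3
  obtain ⟨K, k1, k2, k3, k4, hK⟩ := Pool.Agent.H539.ES.kfx F ι L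
  letI := k1
  letI := k2
  letI := k3
  haveI := k4
  have hda := fun i => Pool.Agent.H539.ES.da3 F (L i) K (a' i : F) (b' i : F) (th i) (hirr' i) (hth i).1 (hth i).2 (hK i)
  obtain ⟨V, v1, v2, v3, cd, hV⟩ := Pool.Agent.Q65.ESN.vg ι F K L
  letI := v1
  letI := v2
  letI := v3
  have hsemi := Pool.Agent.Q190.ESN.sem3 ι F K L (fun i => (hda i).2) V cd hV
  choose B1 hB1 hL using fun i => Pool.Agent.H685.ES.lcg F (L i) K (a' i) (b' i) (th i) (hirr' i) (hth i).1 (hth i).2 (hK i)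
  obtain ⟨B2, C2, hB2, hC2, hR⟩ := Pool.Agent.H428.ES.rep F
  set B : ℕ := B2 * ∏ i, B1 i with hB
  have hB0 : B ≠ 0 := mul_ne_zero hB2 (Finset.prod_ne_zero_iff.2 fun i _ => hB1 i)
  have hB1B : ∀ i, B1 i ∣ B := fun i => (Finset.dvd_prod_of_mem _ (Finset.mem_univ i)).mul_left _
  have hB2B : B2 ∣ B := Dvd.intro _ rfl
  obtain ⟨B', C0, hB', hC0, hcnt⟩ := t_cntb M ι F K L th hM (fun i => (hda i).1) V cd hV hsemi B hB0
  set w : ℕ := {v : HeightOneSpectrum (𝓞 F) | (B' : 𝓞 F) ∈ v.asIdeal}.ncard with hw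
  set C3 : ℝ := max C2 1 with hC3
  have hC31 : 1 ≤ C3 := le_max_right _ _
  have hL3 : 0 ≤ Real.log C3 := Real.log_nonneg hC31
  refine ⟨C0 * C3 * (1 + Real.log C3) ^ (M - 1) * (M : ℝ) ^ w, by positivity, ?_⟩
  intro X 𝒟 hX h𝒟 hsq T
  choose! D0 c hc0 hD0 hSq hN using hR
  have inj : ∀ D ∈ 𝒟, ∀ D' ∈ 𝒟, D0 D = D0 D' → D = D' := by
    intro D hD D' hD' h
    by_contra hne
    apply hsq D hD D' hD' hne
    have h1 := hD0 D (h𝒟 D hD).1
    have h2 := hD0 D' (h𝒟 D' hD').1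
    rw [h] at h1
    have c1 := hc0 D (h𝒟 D hD).1
    have c2 := hc0 D' (h𝒟 D' hD').1
    refine ⟨(D0 D' : F) / (c D * c D'), ?_⟩
    have e1 : D = (D0 D' : F) / c D ^ 2 := by
      rw [h1]; field_simp
    have e2 : D' = (D0 D' : F) / c D' ^ 2 := by
      rw [h2]; field_simp
    have e3 : D * D' = (D0 D' : F) / c D ^ 2 * ((D0 D' : F) / c D' ^ 2) := by
      rw [← e1, ← e2]
    rw [e3]
    field_simp
  -- the sets in `L i`
  have hset : ∀ (i : ι) (D : F), ∃ S : Finset (L i), D ∈ 𝒟 → S.card = (T i D).card ∧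
      (∀ δ ∈ S, δ ≠ 0 ∧ Gd1 F K (th i) B (D0 D) δ) ∧
      ∀ δ ∈ S, ∀ δ' ∈ S, δ ≠ δ' → ¬ IsSquare (δ * δ') := by
    intro i D
    by_cases hD : D ∈ 𝒟
    · set θ : L i := (th i : L i) / algebraMap F (L i) (m : F) ^ 2 with hθ
      have hmL : algebraMap F (L i) (m : F) ≠ 0 := (_root_.map_ne_zero _).2 hmF
      have hroot : θ ^ 3 + algebraMap F (L i) (a i) * θ + algebraMap F (L i) (b i) = 0 := by
        have h1 := (hth i).1
        rw [ha', hb'] at h1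
        simp only [map_mul, map_pow] at h1
        have e : θ ^ 3 + algebraMap F (L i) (a i) * θ + algebraMap F (L i) (b i) =
            ((th i : L i) ^ 3 + algebraMap F (L i) (a i) * algebraMap F (L i) (m : F) ^ 4 * (th i : L i) +
              algebraMap F (L i) (b i) * algebraMap F (L i) (m : F) ^ 6) / algebraMap F (L i) (m : F) ^ 6 := by
          rw [hθ]; field_simp
        rw [e, h1, zero_div]
      obtain ⟨S, hS1, hS2, hS3⟩ := exists_set (hirr i) hroot (hth i).2 (h𝒟 D hD).1 (T i D)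
      refine ⟨S, fun _ => ⟨hS1, fun δ hδ => ⟨(hS2 δ hδ).1, ?_⟩, hS3⟩⟩
      apply hL i B (hB1B i) hB0 (D0 D) δ (hSq D (h𝒟 D hD).1 B hB2B) (hS2 δ hδ).1
      intro v hv
      have h2 := ((hS2 δ hδ).2 v hv).scale hmF (hc0 D (h𝒟 D hD).1)
      have e : θ * algebraMap F (L i) (m : F) ^ 2 = (th i : L i) := by
        rw [hθ]; field_simp
      rw [e, ← ha', ← hb', ← hD0 D (h𝒟 D hD).1] at h2
      exact h2
    · exact ⟨∅, fun h => absurd h hD⟩
  choose S hS using hset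
  set Fs : (i : ι) → 𝓞 F → Finset (L i) := fun i D' =>
    if h : ∃ D ∈ 𝒟, D0 D = D' then S i h.choose else ∅ with hFs
  have hFsD : ∀ (i : ι), ∀ D ∈ 𝒟, Fs i (D0 D) = S i D := by
    intro i D hD
    have h : ∃ D1 ∈ 𝒟, D0 D1 = D0 D := ⟨D, hD, rfl⟩
    have e : h.choose = D := inj _ h.choose_spec.1 D hD h.choose_spec.2
    rw [hFs]
    simp only [dif_pos h, e]
  have hXC : 1 ≤ C3 * X := by nlinarith
  have hres := hcnt Fs (by
      intro i D' δ hδ
      rw [hFs] at hδ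
      dsimp only at hδ
      split_ifs at hδ with h
      · have h1 := (hS i _ h.choose_spec.1).2.1 δ hδ
        rw [h.choose_spec.2] at h1
        exact h1
      · simp at hδ) (by
      intro i D' δ hδ δ' hδ' hne
      rw [hFs] at hδ hδ'
      dsimp only at hδ hδ'
      split_ifs at hδ hδ' with h
      · exact (hS i _ h.choose_spec.1).2.2 δ hδ δ' hδ' hne
      · simp at hδ) (C3 * X) (𝒟.image D0) hXC (by
      intro D' hD'
      obtain ⟨D, hD, rfl⟩ := Finset.mem_image.1 hD'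
      refine ⟨hSq D (h𝒟 D hD).1 B hB2B, (hN D (h𝒟 D hD).1).trans ?_⟩
      have h1 := (h𝒟 D hD).2
      calc C2 * (cond D : ℝ) ≤ C3 * (cond D : ℝ) :=
            mul_le_mul_of_nonneg_right (le_max_left _ _) (Nat.cast_nonneg _)
        _ ≤ C3 * X := mul_le_mul_of_nonneg_left h1 (le_trans zero_le_one (le_max_right _ _))) (by
      intro D1 hD1 D2 hD2 hne hsq'
      obtain ⟨D, hD, rfl⟩ := Finset.mem_image.1 hD1
      obtain ⟨D', hD', rfl⟩ := Finset.mem_image.1 hD2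
      apply hsq D hD D' hD' (fun h => hne (by rw [h]))
      obtain ⟨s, hs⟩ := hsq'
      rw [hD0 D (h𝒟 D hD).1, hD0 D' (h𝒟 D' hD').1] at hs
      have c1 := hc0 D (h𝒟 D hD).1
      have c2 := hc0 D' (h𝒟 D' hD').1
      refine ⟨s / (c D * c D'), ?_⟩
      have e : D * D' = (D * c D ^ 2 * (D' * c D' ^ 2)) / (c D * c D') ^ 2 := by field_simp
      rw [e, hs]
      field_simp)
  rw [Finset.sum_image (fun D hD D' hD' h => inj D hD D' hD' h)] at hres
  have hM1 : (1 : ℝ) ≤ M := by exact_mod_cast hM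
  have e : ∑ D ∈ 𝒟, ((∏ i, (T i D).card : ℕ) : ℝ) * (M : ℝ) ^ omg D ≤
      (M : ℝ) ^ w * ((∑ D ∈ 𝒟, (∏ i, (Fs i (D0 D)).card) * M ^ (RD B' (D0 D)).card : ℕ) : ℝ) := by
    rw [Nat.cast_sum, Finset.mul_sum]
    refine Finset.sum_le_sum fun D hD => ?_
    have e1 : ∏ i, (Fs i (D0 D)).card = ∏ i, (T i D).card :=
      Finset.prod_congr rfl fun i _ => by rw [hFsD i D hD, (hS i D hD).1]
    rw [e1, Nat.cast_mul, Nat.cast_pow]
    have h1 := omg_le hB' (hSq D (h𝒟 D hD).1 B hB2B).1 (hc0 D (h𝒟 D hD).1) (hD0 D (h𝒟 D hD).1)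
    have h2 : (M : ℝ) ^ omg D ≤ (M : ℝ) ^ ((RD B' (D0 D)).card + w) := pow_le_pow_right₀ hM1 h1
    calc ((∏ i, (T i D).card : ℕ) : ℝ) * (M : ℝ) ^ omg D
        ≤ ((∏ i, (T i D).card : ℕ) : ℝ) * (M : ℝ) ^ ((RD B' (D0 D)).card + w) :=
          mul_le_mul_of_nonneg_left h2 (Nat.cast_nonneg _)
      _ = _ := by rw [pow_add]; ring
  refine e.trans ((mul_le_mul_of_nonneg_left hres (by positivity)).trans ?_)
  have hLX : 0 ≤ Real.log X := Real.log_nonneg hX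
  have hlog : 1 + Real.log (C3 * X) ≤ (1 + Real.log C3) * (1 + Real.log X) := by
    rw [Real.log_mul (by positivity) (by positivity)]
    nlinarith
  have hp : (1 + Real.log (C3 * X)) ^ (M - 1) ≤ (1 + Real.log C3) ^ (M - 1) * (1 + Real.log X) ^ (M - 1) := by
    rw [← mul_pow]
    have := Real.log_nonneg hXC
    exact pow_le_pow_left₀ (by linarith) hlog _
  have hX0 : 0 ≤ X := by linarith
  calc (M : ℝ) ^ w * (C0 * (C3 * X) * (1 + Real.log (C3 * X)) ^ (M - 1))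
      ≤ (M : ℝ) ^ w * (C0 * (C3 * X) * ((1 + Real.log C3) ^ (M - 1) * (1 + Real.log X) ^ (M - 1))) := by
        gcongr
    _ = _ := by ring

/-- **the weighted count** -/
theorem cntw (M : ℕ) (hM : 1 ≤ M) (F ι : Type) [Field F] [NumberField F] [Fintype ι] (a b : ι → F)
    (hnr : ∀ i, ∀ x : F, x ^ 3 + a i * x + b i ≠ 0) :
    ∃ C : ℝ, 0 < C ∧ ∀ (X : ℝ) (𝒟 : Finset F), 1 ≤ X → (∀ D ∈ 𝒟, D ≠ 0 ∧ (cond D : ℝ) ≤ X) →
    (∀ D ∈ 𝒟, ∀ D' ∈ 𝒟, D ≠ D' → ¬ IsSquare (D * D')) →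
    ∑ D ∈ 𝒟, (M : ℝ) ^ omg D * ∏ i, (Nat.card (Sel2 (tw (a i) (b i) D)) : ℝ) ≤
      C * X * (1 + Real.log X) ^ (M - 1) := by
  obtain ⟨C, hC, h⟩ := cntw_fin M hM F ι a b hnr
  obtain ⟨C', hC', hf⟩ := Pool.Agent.H575.ES.cnt F ι a b hnr
  refine ⟨C, hC, fun X 𝒟 hX h𝒟 hsq => ?_⟩
  obtain ⟨hfin, -⟩ := hf X 𝒟 hX h𝒟 hsq
  have h1 := h X 𝒟 hX h𝒟 hsq (fun i D => if hf : Finite (Sel2 (tw (a i) (b i) D)) then
    (letI := Fintype.ofFinite (Sel2 (tw (a i) (b i) D)); Finset.univ) else ∅)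
  refine le_trans (le_of_eq ?_) h1
  refine Finset.sum_congr rfl fun D hD => ?_
  rw [mul_comm]
  congr 1
  push_cast
  refine Finset.prod_congr rfl fun i _ => ?_
  rw [dif_pos (hfin D hD i)]
  haveI := hfin D hD i
  letI := Fintype.ofFinite (Sel2 (tw (a i) (b i) D))
  rw [Nat.card_eq_fintype_card]
  simp [Finset.card_univ]

end Pool.Agent.H575.ESB
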