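import Pool.Agent.H575.ESB.Cntw

/-!
# Project ESB (helper575): ranks over all extensions with group `(ℤ/2)^m`
-/

set_option autoImplicit false
set_option linter.all false

open scoped Classical

namespace Pool.Agent.H575.ESB

open NumberField IsDedekindDomain
open Pool.Agent.Q161.ESF (Sel2 Sha T2)
open Pool.Agent.Q51.EL (Abv Par)
open Pool.Agent.H575.ES (tw cond rank_sha_le disc_of)

section rep

variable {F : Type} [Field F]

/-- equality modulo squares -/
def sqS (F : Type) [Field F] : Setoid F where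
  r x y := ∃ c : F, c ≠ 0 ∧ y = x * c ^ 2
  iseqv :=
    { refl := fun x => ⟨1, one_ne_zero, by ring⟩
      symm := by
        rintro x y ⟨c, hc, rfl⟩
        exact ⟨c⁻¹, inv_ne_zero hc, by field_simp⟩
      trans := by
        rintro x y z ⟨c, hc, rfl⟩ ⟨d, hd, rfl⟩
        exact ⟨c * d, mul_ne_zero hc hd, by ring⟩ }

/-- a fixed representative of the class -/
noncomputable def rep (x : F) : F := (Quotient.mk (sqS F) x).out

theorem rep_spec (x : F) : ∃ c : F, c ≠ 0 ∧ rep x = x * c ^ 2 := by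
  have h : (sqS F).r x (rep x) := Setoid.symm' (sqS F) (Quotient.exact (s := sqS F) (Quotient.out_eq _))
  exact h

theorem rep_eq {x y : F} (h : ∃ c : F, c ≠ 0 ∧ y = x * c ^ 2) : rep x = rep y := by
  unfold rep
  rw [show Quotient.mk (sqS F) x = Quotient.mk (sqS F) y from Quotient.sound (s := sqS F) h]

theorem rel_of_sq {x y : F} (hx : x ≠ 0) (hy : y ≠ 0) (h : IsSquare (x * y)) : ∃ c : F, c ≠ 0 ∧ y = x * c ^ 2 := by
  obtain ⟨s, hs⟩ := h
  have hs0 : s ≠ 0 := by
    rintro rfl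
    rw [mul_zero] at hs
    exact mul_ne_zero hx hy hs
  refine ⟨s / x, div_ne_zero hs0 hx, ?_⟩
  field_simp
  rw [mul_comm y x, hs]
  ring

end rep

section par

variable {F : Type} [Field F] [NumberField F]

theorem cond_sq {D c : F} (hc : c ≠ 0) :
    Pool.Agent.H575.ES.cond (D * c ^ 2) = Pool.Agent.H575.ES.cond D := by
  unfold Pool.Agent.H575.ES.cond
  refine finprod_congr fun v => ?_
  have h := par_sq (v := v) (D := D) hc
  by_cases h1 : Par v D 1
  · have h2 := h.2 h1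
    simp only [finprod_true, h1, h2]
  · have h2 : ¬ Par v (D * c ^ 2) 1 := fun h3 => h1 (h.1 h3)
    simp only [finprod_false, h1, h2]

theorem omg_sq {D c : F} (hc : c ≠ 0) : omg (D * c ^ 2) = omg D := by
  unfold omg
  congr 1
  ext v
  exact par_sq hc

end par

/-- the rank of `y² = x³ + a x + b` over the field `M` -/
noncomputable def rkM (M : Type) [Field M] (a b : M) : ℕ :=
  Module.finrank ℤ (⟨0, 0, 0, a, b⟩ : WeierstrassCurve M).toAffine.Point

/-- the rank of `y² = x³ + a x + b` over the extension `K` of `F` -/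
noncomputable def rkK {F : Type} [Field F] (a b : F) (K : IntermediateField F (AlgebraicClosure F)) : ℕ :=
  rkM K (algebraMap F K a) (algebraMap F K b)

/-- the rank over `K` and the Selmer groups of the twists -/
theorem rkK_le (mqr : S_MQR) {F : Type} [Field F] [NumberField F] {m : ℕ}
    {K : IntermediateField F (AlgebraicClosure F)} (hK : MQ m K) {b : Fin m → F} (hb : Gen K b) {A B : F}
    (hd : 4 * A ^ 3 + 27 * B ^ 2 ≠ 0) :
    rkK A B K ≤ ∑ S : Finset (Fin m), Module.finrank ℤ (tw A B (rep (∏ j ∈ S, b j))).toAffine.Point := by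
  haveI : FiniteDimensional F K := Module.finite_of_finrank_pos (by rw [hK.deg]; positivity)
  haveI : NumberField K := NumberField.of_module_finite F K
  let e : Finset (Fin m) ≃ Fin (Fintype.card (Finset (Fin m))) := Fintype.equivFin _
  have h := mqr F K hK.gal hK.sq (Fintype.card (Finset (Fin m)))
    (fun i => rep (∏ j ∈ e.symm i, b j)) (by
      intro i
      obtain ⟨c, hc, h⟩ := rep_spec (∏ j ∈ e.symm i, b j)
      rw [h]
      exact mul_ne_zero (Finset.prod_ne_zero_iff.2 fun j _ => hb.ne j) (pow_ne_zero 2 hc)) (by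
      rintro s c hs hsc
      obtain ⟨S, t, hSt⟩ := hb.all (s : AlgebraicClosure F) s.2 c (by
        have := congrArg (fun x : K => (x : AlgebraicClosure F)) hsc
        simpa using this)
      obtain ⟨c', hc', h'⟩ := rep_spec (∏ j ∈ S, b j)
      refine ⟨e S, t / c', ?_⟩
      rw [Equiv.symm_apply_apply, h', hSt]
      field_simp) A B hd
  unfold rkK rkM
  refine le_trans h (le_of_eq ?_)
  exact (Equiv.sum_comp e.symm (fun S => Module.finrank ℤ (tw A B (rep (∏ j ∈ S, b j))).toAffine.Point))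

theorem one_le_sel {F : Type} [Field F] [NumberField F] (W : WeierstrassCurve F) (h : Finite (Sel2 W)) :
    1 ≤ Nat.card (Sel2 W) := Nat.card_pos

/-- **the upper bound** for the sum over the extensions -/
theorem upper (gen1 : S_GEN1) (mqr : S_MQR) (fam : S_FAM) (F ι : Type) [Field F] [NumberField F] [Fintype ι]
    (a b : ι → F) (hnr : ∀ i, ∀ x : F, x ^ 3 + a i * x + b i ≠ 0) (k m : ℕ) (hm : 1 ≤ m) :
    ∃ C : ℝ, 0 < C ∧ ∀ (X : ℝ) (𝒦 : Finset (IntermediateField F (AlgebraicClosure F))), 1 ≤ X →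
    (∀ K ∈ 𝒦, MQ m K ∧ (condK K : ℝ) ≤ X) →
    ∑ K ∈ 𝒦, (2 : ℝ) ^ (k * ∑ i, rkK (a i) (b i) K) ≤ C * X * (1 + Real.log X) ^ (2 ^ m - 2) := by
  have hd := fun i => disc_of (hnr i)
  -- the class functions
  set e : ℕ := k * 2 ^ m with he
  set g : F → ℕ := fun D => ∏ i, Nat.card (Sel2 (tw (a i) (b i) (rep D))) ^ k with hg
  set f : F → ℝ := fun D => ∏ p : ι × Fin e, (Nat.card (Sel2 (tw (a p.1) (b p.1) (rep D))) : ℝ) with hf
  have hfg : ∀ D, f D = ((g D : ℕ) : ℝ) ^ (2 ^ m) := by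
    intro D
    rw [hf, hg]
    dsimp only
    rw [Fintype.prod_prod_type]
    push_cast
    rw [← Finset.prod_pow]
    refine Finset.prod_congr rfl fun i _ => ?_
    rw [Finset.prod_const, Finset.card_univ, Fintype.card_fin, he, pow_mul]
  obtain ⟨C0, hC0, hcnt⟩ := Pool.Agent.H575.ES.cnt F ι a b hnr
  obtain ⟨C1, hC1, hw⟩ := cntw (2 ^ (m - 1)) Nat.one_le_two_pow F (ι × Fin e) (fun p => a p.1) (fun p => b p.1)
    (fun p => hnr p.1)
  have hfin : ∀ D : F, D ≠ 0 → ∀ i, Finite (Sel2 (tw (a i) (b i) D)) := by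
    intro D hD i
    have h1 := hcnt (max (cond D : ℝ) 1) {D} (le_max_right _ _) (fun D' hD' => by
      rw [Finset.mem_singleton.1 hD']
      exact ⟨hD, le_max_left _ _⟩) (fun D1 h1 D2 h2 hne =>
        absurd ((Finset.mem_singleton.1 h1).trans (Finset.mem_singleton.1 h2).symm) hne)
    exact h1.1 D (Finset.mem_singleton_self D) i
  have hrep0 : ∀ D : F, D ≠ 0 → rep D ≠ 0 := by
    intro D hD
    obtain ⟨c, hc, h⟩ := rep_spec D
    rw [h]
    exact mul_ne_zero hD (pow_ne_zero 2 hc)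
  obtain ⟨C2, hC2, hfam⟩ := fam F m hm (by
      obtain ⟨C, hC, h⟩ := Pool.Agent.H575.ES.cnt F (Fin 0) (fun _ => 0) (fun _ => 0) (fun i => i.elim0)
      refine ⟨C, fun 𝒟 hD hs => ?_⟩
      have := (h 1 𝒟 le_rfl hD hs).2
      simpa using this) f (fun D => Finset.prod_nonneg fun _ _ => Nat.cast_nonneg _) (by
      intro D D' hD hD' hsq
      rw [hf]
      dsimp only
      rw [rep_eq (rel_of_sq hD hD' hsq)]) C1 hC1 (by
      intro Y 𝒟 hY h𝒟 hsq
      have hrepinj : ∀ D ∈ 𝒟, ∀ D' ∈ 𝒟, rep D = rep D' → D = D' := by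
        intro D hD D' hD' h
        by_contra hne
        apply hsq D hD D' hD' hne
        obtain ⟨c, hc, h1⟩ := rep_spec D
        obtain ⟨c', hc', h2⟩ := rep_spec D'
        rw [h1, h2] at h
        have e1 : D = D' * c' ^ 2 / c ^ 2 := by
          rw [← h]; field_simp
        refine ⟨D' * c' / c, ?_⟩
        rw [e1]
        field_simp
      have h1 := hw Y (𝒟.image rep) hY (by
        intro D1 hD1
        obtain ⟨D, hD, rfl⟩ := Finset.mem_image.1 hD1
        obtain ⟨c, hc, h⟩ := rep_spec D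
        refine ⟨hrep0 D (h𝒟 D hD).1, ?_⟩
        rw [h, cond_sq hc]
        exact (h𝒟 D hD).2) (by
        intro D1 hD1 D2 hD2 hne hsq'
        obtain ⟨D, hD, rfl⟩ := Finset.mem_image.1 hD1
        obtain ⟨D', hD', rfl⟩ := Finset.mem_image.1 hD2
        apply hsq D hD D' hD' (fun h => hne (by rw [h]))
        obtain ⟨c, hc, h1⟩ := rep_spec D
        obtain ⟨c', hc', h2⟩ := rep_spec D'
        obtain ⟨s, hs⟩ := hsq'
        rw [h1, h2] at hs
        refine ⟨s / (c * c'), ?_⟩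
        have e3 : D * D' = (D * c ^ 2 * (D' * c' ^ 2)) / (c * c') ^ 2 := by field_simp
        rw [e3, hs]
        field_simp)
      rw [Finset.sum_image (fun D hD D' hD' h => hrepinj D hD D' hD' h)] at h1
      refine le_trans (le_of_eq ?_) h1
      refine Finset.sum_congr rfl fun D hD => ?_
      obtain ⟨c, hc, h⟩ := rep_spec D
      congr 2
      rw [h, omg_sq hc])
  have hg1 : ∀ D : F, D ≠ 0 → 1 ≤ g D := by
    intro D hD
    rw [hg]
    refine Finset.one_le_prod' fun i _ => Nat.one_le_pow _ _ ?_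
    exact one_le_sel _ (hfin _ (hrep0 D hD) i)
  refine ⟨(g 1 : ℝ) * (2 ^ m * C2) + 1, by positivity, fun X 𝒦 hX h𝒦 => ?_⟩
  have hgen : ∀ K : IntermediateField F (AlgebraicClosure F), ∃ bb : Fin m → F, MQ m K → Gen K bb := by
    intro K
    by_cases h : MQ m K
    · obtain ⟨bb, hbb⟩ := gen1 F m K h
      exact ⟨bb, fun _ => hbb⟩
    · exact ⟨fun _ => 0, fun h' => absurd h' h⟩
  choose bb hbb using hgen
  have hlog := Real.log_nonneg hX
  have hX0 : 0 ≤ X := by linarith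
  -- each field
  have hone : ∀ K ∈ 𝒦, (2 : ℝ) ^ (k * ∑ i, rkK (a i) (b i) K) ≤
      (g 1 : ℝ) * ∑ S ∈ (Finset.univ : Finset (Finset (Fin m))).erase ∅, f (∏ j ∈ S, bb K j) := by
    intro K hK
    have hG := hbb K (h𝒦 K hK).1
    have hP0 : ∀ S : Finset (Fin m), (∏ j ∈ S, bb K j) ≠ 0 := fun S => Finset.prod_ne_zero_iff.2 fun j _ => hG.ne j
    have h1 : (2 : ℕ) ^ (k * ∑ i, rkK (a i) (b i) K) ≤ ∏ S : Finset (Fin m), g (∏ j ∈ S, bb K j) := by
      calc (2 : ℕ) ^ (k * ∑ i, rkK (a i) (b i) K)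
          ≤ 2 ^ (k * ∑ i, ∑ S : Finset (Fin m),
              Module.finrank ℤ (tw (a i) (b i) (rep (∏ j ∈ S, bb K j))).toAffine.Point) := by
            refine Nat.pow_le_pow_right (by norm_num) (Nat.mul_le_mul_left _ (Finset.sum_le_sum fun i _ => ?_))
            exact rkK_le mqr (h𝒦 K hK).1 hG (hd i)
        _ = ∏ S : Finset (Fin m), ∏ i,
              (2 ^ Module.finrank ℤ (tw (a i) (b i) (rep (∏ j ∈ S, bb K j))).toAffine.Point) ^ k := by
            rw [Finset.sum_comm, Finset.mul_sum, ← Finset.prod_pow_eq_pow_sum]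
            refine Finset.prod_congr rfl fun S _ => ?_
            rw [Finset.mul_sum, ← Finset.prod_pow_eq_pow_sum]
            refine Finset.prod_congr rfl fun i _ => ?_
            rw [← pow_mul, mul_comm]
        _ ≤ ∏ S : Finset (Fin m), g (∏ j ∈ S, bb K j) := by
            refine Finset.prod_le_prod' fun S _ => ?_
            rw [hg]
            refine Finset.prod_le_prod' fun i _ => Nat.pow_le_pow_left ?_ k
            have hr0 := hrep0 _ (hP0 S)
            have hd' : 4 * (a i * rep (∏ j ∈ S, bb K j) ^ 2) ^ 3 + 27 * (b i * rep (∏ j ∈ S, bb K j) ^ 3) ^ 2 ≠ 0 := by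
              have e : 4 * (a i * rep (∏ j ∈ S, bb K j) ^ 2) ^ 3 + 27 * (b i * rep (∏ j ∈ S, bb K j) ^ 3) ^ 2 =
                (4 * a i ^ 3 + 27 * b i ^ 2) * rep (∏ j ∈ S, bb K j) ^ 6 := by ring
              rw [e]
              exact mul_ne_zero (hd i) (pow_ne_zero _ hr0)
            obtain ⟨k1, k2⟩ := rank_sha_le hd' (hfin _ hr0 i) 0
            haveI := k1
            rw [zero_add, pow_one] at k2
            refine le_trans ?_ k2
            exact Nat.le_mul_of_pos_right _ Nat.card_pos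
    have h2 : ∏ S : Finset (Fin m), g (∏ j ∈ S, bb K j) =
        g 1 * ∏ S ∈ (Finset.univ : Finset (Finset (Fin m))).erase ∅, g (∏ j ∈ S, bb K j) := by
      rw [← Finset.mul_prod_erase Finset.univ (fun S => g (∏ j ∈ S, bb K j)) (Finset.mem_univ (∅ : Finset (Fin m)))]
      rw [Finset.prod_empty]
    -- the product is at most the sum of the powers
    have h3 : ((∏ S ∈ (Finset.univ : Finset (Finset (Fin m))).erase ∅, g (∏ j ∈ S, bb K j) : ℕ) : ℝ) ≤
        ∑ S ∈ (Finset.univ : Finset (Finset (Fin m))).erase ∅, f (∏ j ∈ S, bb K j) := by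
      set P := (Finset.univ : Finset (Finset (Fin m))).erase ∅ with hP
      have hPne : P.Nonempty := ⟨{⟨0, hm⟩}, by
        rw [hP, Finset.mem_erase]
        exact ⟨Finset.singleton_ne_empty _, Finset.mem_univ _⟩⟩
      obtain ⟨S0, hS0, hmax⟩ := Finset.exists_max_image P (fun S => g (∏ j ∈ S, bb K j)) hPne
      have hcard : P.card ≤ 2 ^ m := by
        refine (Finset.card_le_univ P).trans (le_of_eq ?_)
        rw [Fintype.card_finset, Fintype.card_fin]
      have h4 : ∏ S ∈ P, g (∏ j ∈ S, bb K j) ≤ g (∏ j ∈ S0, bb K j) ^ (2 ^ m) :=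
        calc ∏ S ∈ P, g (∏ j ∈ S, bb K j) ≤ g (∏ j ∈ S0, bb K j) ^ P.card :=
              Finset.prod_le_pow_card _ _ _ hmax
          _ ≤ _ := Nat.pow_le_pow_right (hg1 _ (hP0 S0)) hcard
      calc ((∏ S ∈ P, g (∏ j ∈ S, bb K j) : ℕ) : ℝ) ≤ ((g (∏ j ∈ S0, bb K j) ^ (2 ^ m) : ℕ) : ℝ) := by
            exact_mod_cast h4
        _ = f (∏ j ∈ S0, bb K j) := by rw [hfg]; push_cast; rfl
        _ ≤ _ := Finset.single_le_sum (f := fun S => f (∏ j ∈ S, bb K j)) (fun S _ => by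
              rw [hf]; exact Finset.prod_nonneg fun _ _ => Nat.cast_nonneg _) hS0
    calc (2 : ℝ) ^ (k * ∑ i, rkK (a i) (b i) K) = ((2 ^ (k * ∑ i, rkK (a i) (b i) K) : ℕ) : ℝ) := by push_cast; rfl
      _ ≤ ((∏ S : Finset (Fin m), g (∏ j ∈ S, bb K j) : ℕ) : ℝ) := by exact_mod_cast h1
      _ = (g 1 : ℝ) * ((∏ S ∈ (Finset.univ : Finset (Finset (Fin m))).erase ∅, g (∏ j ∈ S, bb K j) : ℕ) : ℝ) := by
          rw [h2]; push_cast; rfl
      _ ≤ _ := mul_le_mul_of_nonneg_left h3 (Nat.cast_nonneg _)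
  calc ∑ K ∈ 𝒦, (2 : ℝ) ^ (k * ∑ i, rkK (a i) (b i) K)
      ≤ ∑ K ∈ 𝒦, (g 1 : ℝ) * ∑ S ∈ (Finset.univ : Finset (Finset (Fin m))).erase ∅, f (∏ j ∈ S, bb K j) :=
        Finset.sum_le_sum hone
    _ = (g 1 : ℝ) * ∑ S ∈ (Finset.univ : Finset (Finset (Fin m))).erase ∅, ∑ K ∈ 𝒦, f (∏ j ∈ S, bb K j) := by
        rw [← Finset.mul_sum, Finset.sum_comm]
    _ ≤ (g 1 : ℝ) * ∑ S ∈ (Finset.univ : Finset (Finset (Fin m))).erase ∅, C2 * X * (1 + Real.log X) ^ (2 ^ m - 2) := by
        refine mul_le_mul_of_nonneg_left (Finset.sum_le_sum fun S hS => ?_) (Nat.cast_nonneg _)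
        exact hfam X 𝒦 bb hX (fun K hK => ⟨hbb K (h𝒦 K hK).1, (h𝒦 K hK).2⟩) S
          (Finset.nonempty_iff_ne_empty.2 (Finset.mem_erase.1 hS).1)
    _ ≤ (g 1 : ℝ) * (2 ^ m * (C2 * X * (1 + Real.log X) ^ (2 ^ m - 2))) := by
        refine mul_le_mul_of_nonneg_left ?_ (Nat.cast_nonneg _)
        rw [Finset.sum_const, nsmul_eq_mul]
        refine mul_le_mul_of_nonneg_right ?_ (by positivity)
        have : ((Finset.univ : Finset (Finset (Fin m))).erase ∅).card ≤ 2 ^ m := by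
          refine (Finset.card_le_univ _).trans (le_of_eq ?_)
          rw [Fintype.card_finset, Fintype.card_fin]
        exact_mod_cast this
    _ = ((g 1 : ℝ) * (2 ^ m * C2)) * X * (1 + Real.log X) ^ (2 ^ m - 2) := by ring
    _ ≤ _ := by
        gcongr
        linarith

/-- **the averages over the extensions** -/
theorem averageK (gen1 : S_GEN1) (mqr : S_MQR) (fam : S_FAM) (lowk : S_LOWK) (F ι : Type) [Field F] [NumberField F]
    [Fintype ι] (a b : ι → F) (hnr : ∀ i, ∀ x : F, x ^ 3 + a i * x + b i ≠ 0) (k m : ℕ) (hm : 1 ≤ m) :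
    ∃ C X0 : ℝ, 0 < C ∧ 1 ≤ X0 ∧ ∀ X : ℝ, X0 ≤ X →
      ∃ 𝒦 : Finset (IntermediateField F (AlgebraicClosure F)),
        (∀ K, K ∈ 𝒦 ↔ MQ m K ∧ (condK K : ℝ) ≤ X) ∧
        X * Real.log X ^ (2 ^ m - 2) ≤ C * 𝒦.card ∧ (𝒦.card : ℝ) ≤ C * X * Real.log X ^ (2 ^ m - 2) ∧
        (∑ K ∈ 𝒦, (2 : ℝ) ^ (k * ∑ i, rkK (a i) (b i) K)) / 𝒦.card ≤ C := by
  obtain ⟨C, hC, hup⟩ := upper gen1 mqr fam F ι a b hnr k m hm
  obtain ⟨C', hC', hup'⟩ := upper gen1 mqr fam F ι a b hnr 0 m hm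
  obtain ⟨c, X0, hc, hX0, hlow⟩ := lowk F m hm
  set n := 2 ^ m - 2 with hn
  refine ⟨C / c + C' * 2 ^ n + 1 / c, max X0 3, by positivity, le_max_of_le_left hX0, fun X hX => ?_⟩
  have hX3 : 3 ≤ X := (le_max_right _ _).trans hX
  have hX1 : 1 ≤ X := by linarith
  have hXX0 : X0 ≤ X := (le_max_left _ _).trans hX
  have hlog1 : 1 ≤ Real.log X := by
    rw [← Real.log_exp 1]
    refine Real.log_le_log (Real.exp_pos 1) (le_trans ?_ hX3)
    have := Real.exp_one_lt_d9
    linarith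
  -- finiteness
  have hfin : {K : IntermediateField F (AlgebraicClosure F) | MQ m K ∧ (condK K : ℝ) ≤ X}.Finite := by
    by_contra hinf
    obtain ⟨N, hN⟩ := exists_nat_gt (C' * X * (1 + Real.log X) ^ n)
    obtain ⟨T, hT1, hT2⟩ := Set.Infinite.exists_subset_card_eq hinf N
    have h1 := hup' X T hX1 (fun K hK => hT1 hK)
    rw [show ∑ K ∈ T, (2 : ℝ) ^ (0 * ∑ i, rkK (a i) (b i) K) = (T.card : ℝ) by simp, hT2] at h1
    exact absurd hN (not_lt.2 h1)
  refine ⟨hfin.toFinset, fun K => by rw [Set.Finite.mem_toFinset]; rfl, ?_⟩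
  set 𝒦 := hfin.toFinset with h𝒦
  have hmem : ∀ K ∈ 𝒦, MQ m K ∧ (condK K : ℝ) ≤ X := fun K hK => (Set.Finite.mem_toFinset hfin).1 hK
  have hl : c * X * (1 + Real.log X) ^ n ≤ (𝒦.card : ℝ) := by
    obtain ⟨𝒦', h1, h2⟩ := hlow X hXX0
    refine h2.trans ?_
    have : 𝒦' ⊆ 𝒦 := fun K hK => (Set.Finite.mem_toFinset hfin).2 (h1 K hK)
    exact_mod_cast Finset.card_le_card this
  have hu : (𝒦.card : ℝ) ≤ C' * X * (1 + Real.log X) ^ n := by
    have h1 := hup' X 𝒦 hX1 hmem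
    rw [show ∑ K ∈ 𝒦, (2 : ℝ) ^ (0 * ∑ i, rkK (a i) (b i) K) = (𝒦.card : ℝ) by simp] at h1
    exact h1
  have hpos : (0 : ℝ) < (𝒦.card : ℝ) := lt_of_lt_of_le (by positivity) hl
  have hp1 : Real.log X ^ n ≤ (1 + Real.log X) ^ n := pow_le_pow_left₀ (by linarith) (by linarith) _
  have hp2 : (1 + Real.log X) ^ n ≤ 2 ^ n * Real.log X ^ n := by
    rw [← mul_pow]
    exact pow_le_pow_left₀ (by linarith) (by linarith) _
  refine ⟨?_, ?_, ?_⟩
  · have h1 : X * Real.log X ^ n ≤ 1 / c * (𝒦.card : ℝ) := by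
      rw [one_div, inv_mul_eq_div, le_div_iff₀ hc]
      calc X * Real.log X ^ n * c = c * X * Real.log X ^ n := by ring
        _ ≤ c * X * (1 + Real.log X) ^ n := by gcongr
        _ ≤ _ := hl
    refine h1.trans (mul_le_mul_of_nonneg_right ?_ hpos.le)
    have : 0 ≤ C / c + C' * 2 ^ n := by positivity
    linarith
  · calc (𝒦.card : ℝ) ≤ C' * X * (1 + Real.log X) ^ n := hu
      _ ≤ C' * X * (2 ^ n * Real.log X ^ n) := by gcongr
      _ = (C' * 2 ^ n) * X * Real.log X ^ n := by ring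
      _ ≤ _ := by
          gcongr
          have : 0 ≤ C / c := by positivity
          have : 0 ≤ 1 / c := by positivity
          linarith
  · rw [div_le_iff₀ hpos]
    calc ∑ K ∈ 𝒦, (2 : ℝ) ^ (k * ∑ i, rkK (a i) (b i) K) ≤ C * X * (1 + Real.log X) ^ n := hup X 𝒦 hX1 hmem
      _ = C / c * (c * X * (1 + Real.log X) ^ n) := by field_simp
      _ ≤ C / c * (𝒦.card : ℝ) := mul_le_mul_of_nonneg_left hl (by positivity)
      _ ≤ _ := by
          refine mul_le_mul_of_nonneg_right ?_ hpos.le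
          have : 0 ≤ C' * 2 ^ n := by positivity
          have : 0 ≤ 1 / c := by positivity
          linarith

end Pool.Agent.H575.ESB
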