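import Pool.Graph.R_pool_sql_team_seeded_3997aac3.Q124.ESN.CNTG
import Pool.Graph.R_pool_sql_team_seeded_3997aac3.Q161.ESB.Stm2

/-!
# Project ESB (helper161), the descent with `M` blocks, part 1 (helper575)
-/

set_option autoImplicit false
set_option linter.all false

namespace Pool.Agent.H575.ESB

open Polynomial NumberField IsDedekindDomain Finset Pool.Agent.Q161.ESN
open Pool.Agent.Q51.EL (Abv Par)
open Pool.Agent.Q124.ESN (gd1_mono sqF_mono val_of_par0 val_of_par1 zmod2_cases val_mv mv_iO not_mem_of_abv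
  exists_prime_below tpg_unique tpg_mv tpg_ex prod_norm_le sq_of cne isSquare_of_qd)

/-- the prime below is unique -/
theorem ov_unique {F K : Type} [Field F] [NumberField F] [Field K] [NumberField K] [Algebra F K]
    {w : HeightOneSpectrum (𝓞 K)} {v v' : HeightOneSpectrum (𝓞 F)} (h : Ov w v) (h' : Ov w v') : v = v' := by
  apply HeightOneSpectrum.ext
  ext x
  exact (h x).trans (h' x).symm

theorem coe_prod' {K ι : Type} [Field K] [NumberField K] (s : Finset ι) (f : ι → 𝓞 K) :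
    ((∏ m ∈ s, f m : 𝓞 K) : K) = ∏ m ∈ s, (f m : K) := map_prod (algebraMap (𝓞 K) K) _ _

/-- the blocks: `z m t` is divisible by `w` iff the product is and the prime below `w` has the block `m` -/
structure Blk {C F K : Type} [Field F] [NumberField F] [Field K] [NumberField K] [Algebra F K]
    {L : C → Type} [∀ c, Field (L c)] [∀ c, NumberField (L c)] [∀ c, Algebra F (L c)]
    {V : Type} [AddCommGroup V] [DistribMulAction (K ≃ₐ[F] K) V]
    (cd : V →+ ((c : C) → (L c →ₐ[F] K) → ZMod 2)) {M : ℕ} (B : ℕ) (D : 𝓞 F) (α : (c : C) → 𝓞 (L c))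
    (j : HeightOneSpectrum (𝓞 F) → Fin M) (z : Fin M → V → 𝓞 K) : Prop where
  eqv : ∀ m, Eqv F (z m)
  ne : ∀ m t, z m t ≠ 0
  blk : ∀ l : ℕ, l.Prime → ¬ l ∣ B → ∀ w : HeightOneSpectrum (𝓞 K), Abv w l → ∀ (m : Fin M) (t : V),
    ((iO F K D ∈ w.asIdeal ∧ TpG cd α w t ∧ ∃ v, Ov w v ∧ j v = m) →
      w.valuation K (z m t : K) = WithZero.exp (-1 : ℤ)) ∧
    (¬ (iO F K D ∈ w.asIdeal ∧ TpG cd α w t ∧ ∃ v, Ov w v ∧ j v = m) → w.valuation K (z m t : K) = 1)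

/-- RELG with `M` blocks -/
def S_RELB : Prop := ∀ (M : ℕ) (C F K : Type) [Fintype C] [Field F] [NumberField F] [Field K] [NumberField K]
  [Algebra F K] [IsGalois ℚ K] (L : C → Type) [∀ c, Field (L c)] [∀ c, NumberField (L c)]
  [∀ c, Algebra F (L c)] (th : (c : C) → 𝓞 (L c)), (∀ c, Dat F K (th c)) →
  ∀ (V : Type) [AddCommGroup V] [Fintype V] [DistribMulAction (K ≃ₐ[F] K) V]
  (cd : V →+ ((c : C) → (L c →ₐ[F] K) → ZMod 2)), VB cd →
  ∀ (ι : Type) [Fintype ι] (Lf : ι → Type)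
  [∀ i, Field (Lf i)] [∀ i, NumberField (Lf i)] (em : (i : ι) → Lf i →+* K) (rp : ι → V),
  Rp F Lf em rp → ∀ B1 : ℕ, B1 ≠ 0 →
  ∃ (B : ℕ) (C0 K0 : ℝ) (Qm : Finset F) (Qa : Finset ((c : C) → L c)),
    B1 ∣ B ∧ B ≠ 0 ∧ 0 < C0 ∧ ∀ (D : 𝓞 F) (δ : (c : C) → L c) (j : HeightOneSpectrum (𝓞 F) → Fin M),
    SqF B1 D → (∀ c, δ c ≠ 0) →
    (∀ c, Gd1 F K (th c) B1 D (δ c)) →
    ∃ μ ∈ Qm, ∃ a ∈ Qa, ∃ (α : (c : C) → 𝓞 (L c)) (z : Fin M → V → 𝓞 K),
      RG th cd B μ a D α (fun t => ∏ m, z m t) ∧ Blk cd B D α j z ∧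
      (∀ m i, ∃ β : 𝓞 (Lf i), em i (β : Lf i) = (z m (rp i) : K) ∧ Nice K0 β) ∧
      (∃ N : 𝓞 F, ∏ m, ∏ t, z m t = iO F K N ∧ ((Ideal.absNorm (Ideal.span {N}) : ℕ) : ℝ) ≤
        C0 * ((Ideal.absNorm (Ideal.span {D}) : ℕ) : ℝ)) ∧
      ∀ c, ∃ η : L c, η ≠ 0 ∧ (α c : L c) = δ c * η ^ 2

theorem relb : S_NRM → S_ZEX → S_QAG → S_QDG → S_FRX → S_RELB := by
  classical
  intro hNRM hZEX hQAG hQDG hFRX M C F K _ _ _ _ _ _ _ L _ _ _ th hDat V _ _ _ cd hV ι _ Lf _ _ em rp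
    hRp B1 hB1
  obtain ⟨Bz, C0, K0, hBz, hC0, hZEX⟩ := hZEX F K V ι Lf em rp hRp
  obtain ⟨Ba, hBa, hQA⟩ := hQAG C F K L th hDat V cd hV
  obtain ⟨Bm, hBm, hQM⟩ := hQDG C F K L th hDat V cd hV
  obtain ⟨Bt, hBt, hFR⟩ := hFRX F K
  choose Bd hBd hnrm using fun c => hNRM F K (L c) (th c)
  let B : ℕ := B1 * (∏ c, Bd c) * Bz * Bt * Ba * Bm
  have hB0 : B ≠ 0 := by
    have h1 : ∏ c, Bd c ≠ 0 := Finset.prod_ne_zero_iff.2 fun c _ => hBd c
    exact mul_ne_zero (mul_ne_zero (mul_ne_zero (mul_ne_zero (mul_ne_zero hB1 h1) hBz) hBt) hBa) hBm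
  have dm : Bm ∣ B := Dvd.intro_left _ rfl
  have d5 : B1 * (∏ c, Bd c) * Bz * Bt * Ba ∣ B := Dvd.intro _ rfl
  have da : Ba ∣ B := (Dvd.intro_left _ rfl).trans d5
  have d4 : B1 * (∏ c, Bd c) * Bz * Bt ∣ B := (Dvd.intro _ rfl).trans d5
  have dt : Bt ∣ B := (Dvd.intro_left _ rfl).trans d4
  have d3 : B1 * (∏ c, Bd c) * Bz ∣ B := (Dvd.intro _ rfl).trans d4
  have dz : Bz ∣ B := (Dvd.intro_left _ rfl).trans d3
  have d2 : B1 * (∏ c, Bd c) ∣ B := (Dvd.intro _ rfl).trans d3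
  have dp : (∏ c, Bd c) ∣ B := (Dvd.intro_left _ rfl).trans d2
  have d1 : B1 ∣ B := (Dvd.intro _ rfl).trans d2
  have dd : ∀ c, Bd c ∣ B := fun c => (Finset.dvd_prod_of_mem Bd (mem_univ c)).trans dp
  obtain ⟨Qa, hQA⟩ := hQA B da hB0
  obtain ⟨Qm, hQM⟩ := hQM B dm hB0
  refine ⟨B, C0 ^ M, K0, Qm, Fintype.piFinset Qa, d1, hB0, pow_pos hC0 M, ?_⟩
  intro D δ j hD hδ hgd
  have hD0 : D ≠ 0 := hD.1
  choose α η hα hη hαe hgdα hval using
    fun c => hnrm c B (dd c) D (δ c) (hδ c) (gd1_mono (hgd c) d1)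
  have hval' : ∀ l : ℕ, l.Prime → ¬ l ∣ B → ∀ w : HeightOneSpectrum (𝓞 K), Abv w l →
      ∀ (c : C) (ι : L c →ₐ[F] K),
      w.valuation K (ι (α c : L c)) = 1 ∨ w.valuation K (ι (α c : L c)) = WithZero.exp (-1 : ℤ) :=
    fun l hl hlB w hw c ι' => hval c l hl hlB w hw ι'
  -- the primes of `F` containing `D`
  have hfin : {v : HeightOneSpectrum (𝓞 F) | v.asIdeal ∣ Ideal.span {D}}.Finite :=
    Ideal.finite_factors (by rw [Ne, Ideal.zero_eq_bot, Ideal.span_singleton_eq_bot]; exact hD0)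
  let R0 : Finset (HeightOneSpectrum (𝓞 F)) := hfin.toFinset.filter fun v => (B : 𝓞 F) ∉ v.asIdeal
  have hR0 : ∀ v, v ∈ R0 ↔ D ∈ v.asIdeal ∧ (B : 𝓞 F) ∉ v.asIdeal := by
    intro v
    rw [Finset.mem_filter, Set.Finite.mem_toFinset, Set.mem_ofPred_eq, Ideal.dvd_iff_le,
      Ideal.span_singleton_le_iff_mem]
  let R : Fin M → Finset (HeightOneSpectrum (𝓞 F)) := fun m => R0.filter fun v => j v = m
  have hR : ∀ m v, v ∈ R m ↔ (D ∈ v.asIdeal ∧ (B : 𝓞 F) ∉ v.asIdeal) ∧ j v = m := by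
    intro m v
    rw [Finset.mem_filter, hR0]
  let τ : HeightOneSpectrum (𝓞 K) → V := fun w =>
    if h : ∃ t : V, TpG cd α w t then h.choose else 0
  have hτ : ∀ l : ℕ, l.Prime → ¬ l ∣ B → ∀ w : HeightOneSpectrum (𝓞 K), Abv w l →
      iO F K D ∈ w.asIdeal → TpG cd α w (τ w) := by
    intro l hl hlB w hw hDw
    have hex' := tpg_ex hV hgdα hval' hl hlB hw hDw
    have h1 : τ w = hex'.choose := dif_pos hex'
    rw [h1]
    exact hex'.choose_spec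
  have hz := fun m => hZEX (R m) τ
    (by
      intro v hv h'
      refine ((hR m v).1 hv).1.2 ?_
      obtain ⟨q, hq⟩ := dz
      rw [hq, Nat.cast_mul]
      exact Ideal.mul_mem_right _ _ h')
    (by
      intro v hv w w' g hov hMv
      obtain ⟨⟨h1, h2⟩, -⟩ := (hR m v).1 hv
      obtain ⟨l, hl, hlB, hvl⟩ := exists_prime_below v hB0 h2
      have hw : Abv w l := by
        have := (hov (l : 𝓞 F)).1 hvl
        rwa [map_natCast] at this
      have hDw : iO F K D ∈ w.asIdeal := (hov D).1 h1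
      have hw' : Abv w' l := (hMv (l : 𝓞 K) (l : 𝓞 K) (by simp)).1 hw
      have hDw' : iO F K D ∈ w'.asIdeal := (mv_iO hMv D).1 hDw
      exact tpg_unique hV (hτ l hl hlB w' hw' hDw') (tpg_mv hV hMv (hτ l hl hlB w hw hDw)))
  choose z hz1 hz2 hz3 hz4 N hN1 hN2 using hz
  have hblk : ∀ l : ℕ, l.Prime → ¬ l ∣ B → ∀ w : HeightOneSpectrum (𝓞 K), Abv w l → ∀ (m : Fin M) (t : V),
    ((iO F K D ∈ w.asIdeal ∧ TpG cd α w t ∧ ∃ v, Ov w v ∧ j v = m) →
      w.valuation K (z m t : K) = WithZero.exp (-1 : ℤ)) ∧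
    (¬ (iO F K D ∈ w.asIdeal ∧ TpG cd α w t ∧ ∃ v, Ov w v ∧ j v = m) → w.valuation K (z m t : K) = 1) := by
    intro l hl hlB w hw m t
    have h1 := hz4 m l hl (fun h' => hlB (h'.trans dz)) w hw t
    have h2 : (iO F K D ∈ w.asIdeal ∧ TpG cd α w t ∧ ∃ v, Ov w v ∧ j v = m) ↔
        (∃ v ∈ R m, Ov w v) ∧ τ w = t := by
      constructor
      · rintro ⟨h3, h4, v', hov', hj⟩
        obtain ⟨-, -, -, h5⟩ := hFR l hl fun h' => hlB (h'.trans dt)
        obtain ⟨v, hov, hvl, -⟩ := h5 w hw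
        have hvv : v' = v := ov_unique hov' hov
        rw [hvv] at hj
        exact ⟨⟨v, (hR m v).2 ⟨⟨(hov D).2 h3, not_mem_of_abv hl hvl hlB⟩, hj⟩, hov⟩,
          tpg_unique hV (hτ l hl hlB w hw h3) h4⟩
      · rintro ⟨⟨v, hv, hov⟩, rfl⟩
        have h3 : iO F K D ∈ w.asIdeal := (hov D).1 ((hR m v).1 hv).1.1
        exact ⟨h3, hτ l hl hlB w hw h3, v, hov, ((hR m v).1 hv).2⟩
    rw [h2]
    exact h1
  have hRel0 : RG0 th cd B D α (fun t => ∏ m, z m t) := by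
    refine ⟨sqF_mono hD d1, hgdα, hα, hval', ?_, fun t => Finset.prod_ne_zero_iff.2 fun m _ => hz2 m t, ?_⟩
    · intro g t
      dsimp only
      rw [coe_prod', coe_prod', map_prod]
      exact Finset.prod_congr rfl fun m _ => hz1 m g t
    · intro l hl hlB w hw t
      have e : w.valuation K ((∏ m, z m t : 𝓞 K) : K) = ∏ m, w.valuation K (z m t : K) := by
        rw [coe_prod', map_prod]
      rw [e]
      constructor
      · rintro ⟨h3, h4⟩
        obtain ⟨-, -, -, h5⟩ := hFR l hl fun h' => hlB (h'.trans dt)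
        obtain ⟨v, hov, hvl, -⟩ := h5 w hw
        rw [Finset.prod_eq_single (j v)]
        · exact (hblk l hl hlB w hw (j v) t).1 ⟨h3, h4, v, hov, rfl⟩
        · intro m _ hm
          refine (hblk l hl hlB w hw m t).2 ?_
          rintro ⟨-, -, v', hov', hj⟩
          rw [ov_unique hov' hov] at hj
          exact hm hj.symm
        · intro h
          exact absurd (Finset.mem_univ _) h
      · intro h
        refine Finset.prod_eq_one fun m _ => (hblk l hl hlB w hw m t).2 ?_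
        rintro ⟨h3, h4, -⟩
        exact h ⟨h3, h4⟩
  choose a ha q hq hqe using fun c => hQA D α _ hRel0 c
  obtain ⟨μ, hμ, s, hs, hse⟩ := hQM D α _ hRel0
  refine ⟨μ, hμ, a, Fintype.mem_piFinset.2 ha, α, z,
    ⟨hRel0, fun c => ⟨q c, hq c, hqe c⟩, ⟨s, hs, hse⟩⟩, ⟨hz1, hz2, hblk⟩, hz3, ⟨∏ m, N m, ?_, ?_⟩,
    fun c => ⟨η c, hη c, hαe c⟩⟩
  · rw [map_prod]
    exact Finset.prod_congr rfl fun m _ => hN1 m
  · have e1 : ((Ideal.absNorm (Ideal.span {∏ m, N m}) : ℕ) : ℝ) =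
        ∏ m, ((Ideal.absNorm (Ideal.span {N m}) : ℕ) : ℝ) := by
      rw [← Ideal.prod_span_singleton, map_prod]
      push_cast
      rfl
    rw [e1]
    have e2 : ∏ m, ((Ideal.absNorm (Ideal.span {N m}) : ℕ) : ℝ) ≤
        ∏ m : Fin M, (C0 * ∏ v ∈ R m, ((Ideal.absNorm v.asIdeal : ℕ) : ℝ)) :=
      Finset.prod_le_prod (fun m _ => Nat.cast_nonneg _) fun m _ => hN2 m
    refine e2.trans ?_
    rw [Finset.prod_mul_distrib, Finset.prod_const, Finset.card_univ, Fintype.card_fin]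
    refine mul_le_mul_of_nonneg_left ?_ (pow_nonneg hC0.le _)
    have e3 : ∏ m : Fin M, ∏ v ∈ R m, ((Ideal.absNorm v.asIdeal : ℕ) : ℝ) =
        ∏ v ∈ R0, ((Ideal.absNorm v.asIdeal : ℕ) : ℝ) :=
      Finset.prod_fiberwise_of_maps_to (fun v _ => Finset.mem_univ (j v)) _
    rw [e3]
    exact prod_norm_le hD0 R0 fun v hv => ((hR0 v).1 hv).1

end Pool.Agent.H575.ESB
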